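import Mathlib

set_option autoImplicit false

namespace Pool.Agent.Lib.MP_f2f5f5_nt

open Finset

/-- The Gaussian integer `i`. -/
def gi : GaussianInt := ⟨0, 1⟩

theorem gi_sq : gi * gi = -1 := by
  ext <;> simp [gi]

theorem gi_pow_two : gi ^ 2 = -1 := by rw [sq, gi_sq]

theorem star_gi : star gi = -gi := by
  ext <;> simp [gi]

theorem eq_re_add_im (z : GaussianInt) : z = (z.re : GaussianInt) + (z.im : GaussianInt) * gi := by
  ext <;> simp [gi]

/-- The fourth roots of unity in the Gaussian integers. -/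
theorem four_cases {z : GaussianInt} (h : z ^ 4 = 1) : z = 1 ∨ z = -1 ∨ z = gi ∨ z = -gi := by
  have h1 : (z - 1) * (z + 1) * (z - gi) * (z + gi) = 0 := by
    have hg := gi_pow_two
    linear_combination h + (z ^ 2 - 1) * (-1) * hg * 1
  rcases mul_eq_zero.mp h1 with h2 | h2
  · rcases mul_eq_zero.mp h2 with h3 | h3
    · rcases mul_eq_zero.mp h3 with h4 | h4
      · left; linear_combination h4
      · right; left; linear_combination h4
    · right; right; left; linear_combination h3
  · right; right; right; linear_combination h2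

section

variable {K : Type*} [CommRing K] (φ : GaussianInt →+* K)

theorem map_gi_sq : φ gi ^ 2 = -1 := by
  rw [← map_pow, gi_pow_two, map_neg, map_one]

theorem eq_one_of_map_eq_one (h2 : (2 : K) ≠ 0) {v : GaussianInt} (hv : v ^ 4 = 1)
    (h : φ v = 1) : v = 1 := by
  rcases four_cases hv with rfl | rfl | rfl | rfl
  · rfl
  · exfalso; apply h2
    rw [map_neg, map_one] at h
    linear_combination -h
  · exfalso; apply h2
    have := map_gi_sq φ
    rw [h] at this
    linear_combination this
  · exfalso; apply h2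
    have := map_gi_sq φ
    rw [map_neg] at h
    have h3 : φ gi = -1 := by linear_combination -h
    rw [h3] at this
    linear_combination this

theorem map_inj (h2 : (2 : K) ≠ 0) {z w : GaussianInt} (hz : z ^ 4 = 1) (hw : w ^ 4 = 1)
    (h : φ z = φ w) : z = w := by
  have h1 : (z * w ^ 3) ^ 4 = 1 := by
    have e : (z * w ^ 3) ^ 4 = z ^ 4 * (w ^ 4) ^ 3 := by ring
    rw [e, hz, hw]; norm_num
  have h3 : φ (z * w ^ 3) = 1 := by
    rw [map_mul, h, ← map_mul, ← pow_succ', hw, map_one]
  have h4 := eq_one_of_map_eq_one φ h2 h1 h3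
  calc z = z * w ^ 4 := by rw [hw, mul_one]
    _ = (z * w ^ 3) * w := by ring
    _ = w := by rw [h4, one_mul]

theorem map_surj [IsDomain K] {t : K} (ht : t ^ 4 = 1) : ∃ z : GaussianInt, z ^ 4 = 1 ∧ φ z = t := by
  have hj := map_gi_sq φ
  have h1 : (t - 1) * (t + 1) * (t - φ gi) * (t + φ gi) = 0 := by
    linear_combination ht + (t ^ 2 - 1) * (-1) * hj
  have hg4 : gi ^ 4 = 1 := by
    have : gi ^ 4 = (gi ^ 2) ^ 2 := by ring
    rw [this, gi_pow_two]; norm_num
  rcases mul_eq_zero.mp h1 with h2 | h2
  · rcases mul_eq_zero.mp h2 with h3 | h3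
    · rcases mul_eq_zero.mp h3 with h4 | h4
      · exact ⟨1, one_pow 4, by rw [map_one]; linear_combination -h4⟩
      · exact ⟨-1, by norm_num, by rw [map_neg, map_one]; linear_combination -h4⟩
    · exact ⟨gi, hg4, by linear_combination -h3⟩
  · exact ⟨-gi, by rw [neg_pow, hg4]; norm_num, by rw [map_neg]; linear_combination -h2⟩

end

section

variable (l : ℕ) [hl : Fact l.Prime] (h4 : l % 4 = 1) (φ : GaussianInt →+* ZMod l)

include h4 in
theorem two_ne_zero' : (2 : ZMod l) ≠ 0 := by
  intro h
  have h1 : ((2 : ℕ) : ZMod l) = 0 := by exact_mod_cast h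
  rw [ZMod.natCast_eq_zero_iff] at h1
  have := Nat.le_of_dvd (by norm_num) h1
  have := hl.out.two_le
  have : l = 2 := by omega
  omega

include h4 in
/-- The quartic character attached to `φ : ℤ[i] → 𝔽_ℓ`. -/
theorem exists_chi : ∃ χ : MulChar (ZMod l) GaussianInt,
    ∀ t : ZMod l, t ≠ 0 → χ t ^ 4 = 1 ∧ φ (χ t) = t ^ ((l - 1) / 4) := by
  have h2 := two_ne_zero' l h4
  have key : ∀ t : ZMod l, t ≠ 0 → ∃ z : GaussianInt, z ^ 4 = 1 ∧ φ z = t ^ ((l - 1) / 4) := by
    intro t ht
    apply map_surj φ
    rw [← pow_mul]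
    have : (l - 1) / 4 * 4 = l - 1 := by omega
    rw [this]
    exact ZMod.pow_card_sub_one_eq_one ht
  choose f hf using key
  classical
  refine ⟨{ toFun := fun t => if h : t = 0 then 0 else f t h
            map_one' := ?_
            map_mul' := ?_
            map_nonunit' := ?_ }, ?_⟩
  · have h1 : (1 : ZMod l) ≠ 0 := one_ne_zero
    simp only [h1, dite_false]
    apply map_inj φ h2 (hf 1 h1).1 (one_pow 4)
    rw [(hf 1 h1).2, one_pow, map_one]
  · intro s t
    by_cases hs : s = 0
    · simp [hs]
    by_cases ht : t = 0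
    · simp [ht]
    have hst : s * t ≠ 0 := mul_ne_zero hs ht
    simp only [hs, ht, hst, dite_false]
    apply map_inj φ h2 (hf _ hst).1
    · rw [mul_pow, (hf s hs).1, (hf t ht).1, one_mul]
    · rw [(hf _ hst).2, map_mul, (hf s hs).2, (hf t ht).2, mul_pow]
  · intro t ht
    have : t = 0 := by
      by_contra h
      exact ht (isUnit_iff_ne_zero.mpr h)
    simp [this]
  · intro t ht
    constructor
    · change (if h : t = 0 then 0 else f t h) ^ 4 = 1
      simp only [ht, dite_false]
      exact (hf t ht).1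
    · change φ (if h : t = 0 then 0 else f t h) = _
      simp only [ht, dite_false]
      exact (hf t ht).2

end

end Pool.Agent.Lib.MP_f2f5f5_nt
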