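import Mathlib
import Pool.Agent.Lib.MP_f2f5f5_nt.Char

set_option autoImplicit false

namespace Pool.Agent.Lib.MP_f2f5f5_nt

open Finset

theorem star_mul_self_of_four {z : GaussianInt} (h : z ^ 4 = 1) : star z * z = 1 := by
  rcases four_cases h with rfl | rfl | rfl | rfl
  · simp
  · simp
  · rw [star_gi]; linear_combination -gi_pow_two
  · rw [star_neg, star_gi]; linear_combination -gi_pow_two

section

variable (l : ℕ) [hl : Fact l.Prime] (h4 : l % 4 = 1) (φ : GaussianInt →+* ZMod l)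
  (χ : MulChar (ZMod l) GaussianInt)
  (hχ : ∀ t : ZMod l, t ≠ 0 → χ t ^ 4 = 1 ∧ φ (χ t) = t ^ ((l - 1) / 4))

include h4 in
theorem l_ge_five : 5 ≤ l := by
  have := hl.out.two_le
  have h3 : l ≠ 2 := by rintro rfl; omega
  have h3 : l ≠ 3 := by rintro rfl; omega
  have h3 : l ≠ 4 := by rintro rfl; omega
  omega

include hχ in
theorem chi_pow_four : χ ^ 4 = 1 := by
  refine MulChar.ext fun t => ?_
  rw [MulChar.pow_apply_coe, MulChar.one_apply_coe]
  exact (hχ t t.ne_zero).1

include hχ in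
theorem chi_neg_one : χ (-1) ^ 2 = 1 ∧ φ (χ (-1)) = (-1) ^ ((l - 1) / 4) := by
  have h1 : (-1 : ZMod l) ≠ 0 := neg_ne_zero.mpr one_ne_zero
  refine ⟨?_, (hχ (-1) h1).2⟩
  rw [← map_pow]; norm_num

include h4 hχ in
theorem chi_two_sq : χ 2 ^ 2 = χ (-1) := by
  have h20 := two_ne_zero' l h4
  have h1 : (-1 : ZMod l) ≠ 0 := neg_ne_zero.mpr one_ne_zero
  apply map_inj φ h20
  · have := (hχ 2 h20).1
    calc (χ 2 ^ 2) ^ 4 = (χ 2 ^ 4) ^ 2 := by ring
      _ = 1 := by rw [this]; norm_num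
  · exact (hχ (-1) h1).1
  · rw [map_pow, (hχ 2 h20).2, (hχ (-1) h1).2]
    set j := φ gi with hj
    have hj2 : j ^ 2 = -1 := map_gi_sq φ
    have e : (2 : ZMod l) = (-j) * (1 + j) ^ 2 := by linear_combination (j + 2) * hj2
    have h1j : (1 + j) ≠ 0 := by
      intro h0
      rw [h0] at e
      apply h20
      rw [e]; ring
    have hk : ((l - 1) / 4) * 4 = l - 1 := by omega
    set k := (l - 1) / 4
    rw [e]
    have : (((-j) * (1 + j) ^ 2) ^ k) ^ 2 = ((j ^ 2) ^ k) * ((1 + j) ^ (k * 4)) := by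
      rw [mul_pow, mul_pow, ← pow_mul, ← pow_mul, ← pow_mul, ← pow_mul, neg_pow,
        Even.neg_one_pow (by simp : Even (k * 2)), one_mul]
      congr 2 <;> ring
    rw [this, hj2, hk, ZMod.pow_card_sub_one_eq_one h1j, mul_one]

include h4 hχ in
theorem chi_sq_ne_one : χ ^ 2 ≠ 1 := by
  intro h
  obtain ⟨a, ha⟩ := FiniteField.exists_nonsquare (F := ZMod l) (by
    rw [ZMod.ringChar_zmod_n]; rintro rfl; omega)
  have ha0 : a ≠ 0 := by rintro rfl; exact ha ⟨0, by simp⟩
  apply ha
  rw [ZMod.euler_criterion l ha0]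
  have h1 := (hχ a ha0).2
  have h2 : χ a ^ 2 = 1 := by
    rw [← MulChar.pow_apply' χ two_ne_zero, h, MulChar.one_apply (isUnit_iff_ne_zero.mpr ha0)]
  have hk : l / 2 = (l - 1) / 4 * 2 := by omega
  rw [hk, pow_mul, ← h1, ← map_pow, h2, map_one]

include h4 hχ in
theorem chi_ne_one : χ ≠ 1 := by
  intro h
  apply chi_sq_ne_one l h4 φ χ hχ
  rw [h, one_pow]

include h4 hχ in
/-- The Jacobi sum is divisible by the prime. -/
theorem map_jacobi : φ (jacobiSum χ χ) = 0 := by
  have h5 := l_ge_five l h4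
  set k := (l - 1) / 4 with hk
  have hk0 : k ≠ 0 := by omega
  have hval : ∀ t : ZMod l, φ (χ t) = t ^ k := by
    intro t
    by_cases ht : t = 0
    · rw [ht, MulChar.map_zero, map_zero, zero_pow hk0]
    · exact (hχ t ht).2
  rw [jacobiSum, map_sum]
  simp only [map_mul, hval]
  have hexp : ∀ t : ZMod l, t ^ k * (1 - t) ^ k
      = ∑ m ∈ range (k + 1), (((-1) ^ m * (k.choose m : ZMod l)) * t ^ (k + m)) := by
    intro t
    have e : (1 - t) ^ k = ((-t) + 1) ^ k := by ring
    rw [e, add_pow, mul_sum]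
    refine sum_congr rfl fun m _ => ?_
    rw [one_pow, mul_one, neg_pow, pow_add]
    ring
  simp only [hexp]
  rw [sum_comm]
  refine sum_eq_zero fun m hm => ?_
  rw [← mul_sum]
  have hm' : m ≤ k := by have := mem_range.mp hm; omega
  have : ∑ t : ZMod l, t ^ (k + m) = 0 := by
    apply FiniteField.sum_pow_lt_card_sub_one
    rw [ZMod.card]
    omega
  rw [this, mul_zero]

include hχ in
theorem chi_inv_apply (t : ZMod l) : χ⁻¹ t = star (χ t) := by
  by_cases ht : t = 0
  · rw [ht, MulChar.map_zero, MulChar.map_zero, star_zero]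
  · rw [MulChar.inv_apply']
    have h1 : χ t⁻¹ * χ t = 1 := by rw [← map_mul, inv_mul_cancel₀ ht, map_one]
    have h2 := star_mul_self_of_four (hχ t ht).1
    have h3 : χ t ≠ 0 := by
      intro h0; rw [h0, mul_zero] at h1; exact zero_ne_one h1
    exact mul_right_cancel₀ h3 (h1.trans h2.symm)

include h4 hχ in
/-- The Jacobi sum has norm `ℓ`. -/
theorem jacobi_norm : jacobiSum χ χ * star (jacobiSum χ χ) = (l : GaussianInt) := by
  have h1 : star (jacobiSum χ χ) = jacobiSum χ⁻¹ χ⁻¹ := by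
    rw [jacobiSum, jacobiSum, star_sum]
    refine sum_congr rfl fun t _ => ?_
    rw [star_mul', chi_inv_apply l φ χ hχ, chi_inv_apply l φ χ hχ]
  rw [h1]
  apply GaussianInt.toComplex_injective
  rw [map_mul, ← jacobiSum_ringHomComp, ← jacobiSum_ringHomComp, ← MulChar.ringHomComp_inv,
    map_natCast]
  have hinj := GaussianInt.toComplex_injective
  have hne : (χ.ringHomComp GaussianInt.toComplex) ≠ 1 :=
    (MulChar.ringHomComp_ne_one_iff hinj).mpr (chi_ne_one l h4 φ χ hχ)
  have hne2 : (χ.ringHomComp GaussianInt.toComplex) * (χ.ringHomComp GaussianInt.toComplex) ≠ 1 := by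
    rw [← MulChar.ringHomComp_mul]
    apply (MulChar.ringHomComp_ne_one_iff hinj).mpr
    rw [← sq]; exact chi_sq_ne_one l h4 φ χ hχ
  have hchar : ringChar ℂ ≠ ringChar (ZMod l) := by
    rw [ZMod.ringChar_zmod_n, ringChar.eq_zero]
    exact hl.out.ne_zero.symm
  rw [jacobiSum_mul_jacobiSum_inv hchar hne hne hne2, ZMod.card]

theorem two_mul_sub_one_dvd {u : GaussianInt} (h : u ^ 4 = 1) :
    (2 + 2 * gi) ∣ 2 * (u - 1) := by
  rcases four_cases h with rfl | rfl | rfl | rfl
  · simp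
  · exact ⟨-1 + gi, by linear_combination -2 * gi_pow_two⟩
  · exact ⟨gi, by linear_combination -2 * gi_pow_two⟩
  · exact ⟨-1, by ring⟩

include h4 hχ in
/-- The Jacobi sum modulo `2 + 2i`. -/
theorem jacobi_cong :
    (2 + 2 * gi) ∣ jacobiSum χ χ - (χ (-1) + (l : GaussianInt) - 3) := by
  classical
  have h5 := l_ge_five l h4
  have h20 := two_ne_zero' l h4
  set t0 : ZMod l := 2⁻¹ with ht0
  have h2t : 2 * t0 = 1 := mul_inv_cancel₀ h20
  have ht00 : t0 ≠ 0 := by rw [ht0]; exact inv_ne_zero h20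
  have ht01 : t0 ≠ 1 := by
    intro h
    have e : (2 : ZMod l) * t0 = 2 * 1 := by rw [h]
    rw [h2t] at e
    exact one_ne_zero (by linear_combination -e : (1 : ZMod l) = 0)
  have h1t0 : 1 - t0 = t0 := by linear_combination -h2t
  let R := GaussianInt ⧸ Ideal.span {(2 + 2 * gi : GaussianInt)}
  let mk : GaussianInt →+* R := Ideal.Quotient.mk _
  have hmk : ∀ x : GaussianInt, mk x = 0 ↔ (2 + 2 * gi) ∣ x := by
    intro x
    rw [← Ideal.mem_span_singleton]
    exact Ideal.Quotient.eq_zero_iff_mem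
  let s : Finset (ZMod l) := univ \ {0, 1, t0}
  have hs : ∀ t ∈ s, t ≠ 0 ∧ t ≠ 1 ∧ t ≠ t0 := by
    intro t ht
    simp only [s, mem_sdiff, mem_univ, mem_insert, mem_singleton, not_or, true_and] at ht
    exact ht
  have hu : ∀ t ∈ s, (χ t * χ (1 - t)) ^ 4 = 1 := by
    intro t ht
    obtain ⟨h0, h1, -⟩ := hs t ht
    have h1' : (1 - t) ≠ 0 := by
      intro h; apply h1; linear_combination -h
    rw [mul_pow, (hχ t h0).1, (hχ _ h1').1, one_mul]
  have hzero : ∑ t ∈ s, (mk (χ t * χ (1 - t)) - 1) = 0 := by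
    refine sum_involution (g := fun t _ => 1 - t) ?_ ?_ ?_ ?_
    · intro t ht
      have e : 1 - (1 - t) = t := by ring
      rw [e, mul_comm (χ (1 - t)) (χ t)]
      have h := two_mul_sub_one_dvd (hu t ht)
      rw [← hmk] at h
      rw [map_mul, map_ofNat, map_sub, map_one] at h
      linear_combination h
    · intro t ht _ hcon
      apply (hs t ht).2.2
      have : 2 * t = 2 * t0 := by rw [h2t]; linear_combination -hcon
      exact mul_left_cancel₀ h20 this
    · intro t ht
      obtain ⟨h0, h1, h2⟩ := hs t ht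
      simp only [s, mem_sdiff, mem_univ, mem_insert, mem_singleton, not_or, true_and]
      refine ⟨?_, ?_, ?_⟩
      · intro h; apply h1; linear_combination -h
      · intro h; apply h0; linear_combination -h
      · intro h; apply h2; rw [← h1t0]; linear_combination -h
    · intro t ht
      ring
  have hcard : s.card = l - 3 := by
    have h3 : ({0, 1, t0} : Finset (ZMod l)).card = 3 := by
      rw [card_insert_of_notMem, card_insert_of_notMem, card_singleton]
      · simpa using ht01.symm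
      · simp only [mem_insert, mem_singleton, not_or]
        exact ⟨zero_ne_one, ht00.symm⟩
    rw [card_sdiff_of_subset (subset_univ _), card_univ, ZMod.card, h3]
  have hJ : jacobiSum χ χ = ∑ t ∈ s, χ t * χ (1 - t) + χ t0 ^ 2 := by
    rw [jacobiSum, ← sum_sdiff (subset_univ ({0, 1, t0} : Finset (ZMod l)))]
    congr 1
    rw [sum_insert, sum_insert, sum_singleton]
    · rw [MulChar.map_zero, zero_mul, sub_self, MulChar.map_zero, mul_zero, zero_add, zero_add,
        h1t0, sq]
    · simpa using ht01.symm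
    · simp only [mem_insert, mem_singleton, not_or]
      exact ⟨zero_ne_one, ht00.symm⟩
  have ht0sq : χ t0 ^ 2 = χ (-1) := by
    have e1 : χ t0 ^ 2 * χ 2 ^ 2 = 1 := by
      rw [← mul_pow, ← map_mul, mul_comm, h2t, map_one, one_pow]
    have e2 := chi_two_sq l h4 φ χ hχ
    have e3 := (chi_neg_one l φ χ hχ).1
    rw [e2] at e1
    calc χ t0 ^ 2 = χ t0 ^ 2 * (χ (-1)) ^ 2 := by rw [e3, mul_one]
      _ = (χ t0 ^ 2 * χ (-1)) * χ (-1) := by ring
      _ = χ (-1) := by rw [e1, one_mul]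
  rw [← hmk]
  rw [hJ, ht0sq]
  rw [sum_sub_distrib, sum_const, hcard, nsmul_one, Nat.cast_sub (by omega)] at hzero
  rw [← map_sum] at hzero
  simp only [map_sub, map_add, map_natCast, map_ofNat]
  push_cast at hzero
  linear_combination hzero

/-- Primary Gaussian integers: `z ≡ 1 (mod 2 + 2i)`. -/
def Primary (z : GaussianInt) : Prop := (2 + 2 * gi) ∣ z - 1

theorem unit_primary {w : GaussianInt} (h : w ^ 4 = 1) (hp : (2 + 2 * gi) ∣ w - 1) : w = 1 := by
  obtain ⟨c, hc⟩ := hp
  have h2 : (2 + 2 * gi).norm = 8 := by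
    simp [gi, Zsqrtd.norm_def]
  have h3 : (w - 1).norm = 8 * c.norm := by rw [hc, Zsqrtd.norm_mul, h2]
  rcases four_cases h with rfl | rfl | rfl | rfl
  · rfl
  · exfalso
    have : ((-1 : GaussianInt) - 1).norm = 4 := by
      simp [Zsqrtd.norm_def]
    omega
  · exfalso
    have : ((gi : GaussianInt) - 1).norm = 2 := by
      simp [gi, Zsqrtd.norm_def]
    omega
  · exfalso
    have : ((-gi : GaussianInt) - 1).norm = 2 := by
      simp [gi, Zsqrtd.norm_def]
    omega

theorem four_of_norm_one {w : GaussianInt} (h : w * star w = 1) : w ^ 4 = 1 := by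
  have h1 : w.norm = 1 := by
    have h2 : ((w.norm : ℤ) : GaussianInt) = 1 := by rw [Zsqrtd.norm_eq_mul_conj, h]
    exact_mod_cast h2
  have h3 : w.re * w.re + w.im * w.im = 1 := by
    rw [Zsqrtd.norm_def] at h1; linarith
  have h4 : w.re * w.re ≤ 1 := by nlinarith [mul_self_nonneg w.im]
  have h5 : w.im * w.im ≤ 1 := by nlinarith [mul_self_nonneg w.re]
  have h6 : -1 ≤ w.re ∧ w.re ≤ 1 := by constructor <;> nlinarith
  have h7 : -1 ≤ w.im ∧ w.im ≤ 1 := by constructor <;> nlinarith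
  have h8 : w = ⟨w.re, w.im⟩ := rfl
  obtain ⟨a, b⟩ := w
  simp only at h3 h6 h7
  obtain ⟨ha1, ha2⟩ := h6
  obtain ⟨hb1, hb2⟩ := h7
  interval_cases a <;> interval_cases b <;> first | (exfalso; revert h3; norm_num; done) | decide

include h4 hχ in
/-- Evaluation of the Jacobi sum. -/
theorem jacobi_eq (lam : GaussianInt) (hnorm : lam * star lam = (l : GaussianInt))
    (hker : ∀ z, φ z = 0 → lam ∣ z) (hprim : Primary lam) :
    jacobiSum χ χ = -χ (-1) * lam := by
  obtain ⟨w, hw⟩ := hker _ (map_jacobi l h4 φ χ hχ)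
  have hN := jacobi_norm l h4 φ χ hχ
  have hl0 : (l : GaussianInt) ≠ 0 := by exact_mod_cast hl.out.ne_zero
  have hw1 : w * star w = 1 := by
    rw [hw, star_mul'] at hN
    apply mul_left_cancel₀ hl0
    linear_combination hN - w * star w * hnorm
  have hw4 := four_of_norm_one hw1
  obtain ⟨he2, -⟩ := chi_neg_one l φ χ hχ
  set ε := χ (-1) with hε
  have he4 : ε ^ 4 = 1 := by
    calc ε ^ 4 = (ε ^ 2) ^ 2 := by ring
      _ = 1 := by rw [he2]; norm_num
  obtain ⟨c, hc⟩ := jacobi_cong l h4 φ χ hχ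
  obtain ⟨d, hd⟩ := two_mul_sub_one_dvd he4
  obtain ⟨e, he⟩ := hprim
  have h1 : -ε * w = 1 := by
    apply unit_primary
    · calc (-ε * w) ^ 4 = ε ^ 4 * w ^ 4 := by ring
        _ = 1 := by rw [he4, hw4, one_mul]
    · obtain ⟨k, hk⟩ : ∃ k : ℕ, l = 4 * k + 1 := ⟨l / 4, by omega⟩
      have hlk : (l : GaussianInt) = 4 * k + 1 := by rw [hk]; push_cast; ring
      -- `-ε w - 1 = -ε w (1 - lam) + (-ε J - 1)`
      rw [hw] at hc
      refine ⟨ε * w * e - ε * c + d - ε * (1 - gi) * k, ?_⟩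
      linear_combination (-ε * w) * (-1) * he * (-1) * (-1) - ε * hc + hd
        - (1 : GaussianInt) * he2 - ε * hlk - ε * k * 2 * gi_pow_two * (-1) * (-1)
  rw [hw]
  have h2 : w = -ε := by
    linear_combination -ε * h1 - w * he2
  rw [h2]; ring

end

end Pool.Agent.Lib.MP_f2f5f5_nt
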