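import Mathlib
import Pool.Agent.Lib.MP_f2f5f5_nt.Jac

set_option autoImplicit false

namespace Pool.Agent.Lib.MP_f2f5f5_nt

open Finset

section

variable (l : ℕ) [hl : Fact l.Prime] (h4 : l % 4 = 1) (φ : GaussianInt →+* ZMod l)
  (χ : MulChar (ZMod l) GaussianInt)
  (hχ : ∀ t : ZMod l, t ≠ 0 → χ t ^ 4 = 1 ∧ φ (χ t) = t ^ ((l - 1) / 4))
  (lam : GaussianInt) (hnorm : lam * star lam = (l : GaussianInt))
  (hker : ∀ z, φ z = 0 → lam ∣ z) (hprim : Primary lam)
  (q : ℕ) [hq : Fact q.Prime] (hq2 : q ≠ 2) (hql : q ≠ l)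
  {K : Type*} [Field K] [CharP K q] (σ : GaussianInt →+* K)
  (ψ : AddChar (ZMod l) K) (hψ : ψ.IsPrimitive)

include hq2 in
theorem two_ne_zero_K : (2 : K) ≠ 0 := by
  intro h
  have h1 : ((2 : ℕ) : K) = 0 := by exact_mod_cast h
  rw [CharP.cast_eq_zero_iff K q] at h1
  exact hq2 ((Nat.prime_dvd_prime_iff_eq hq.out Nat.prime_two).mp h1)

include hql in
theorem l_ne_zero_K : (l : K) ≠ 0 := by
  intro h
  rw [CharP.cast_eq_zero_iff K q] at h
  exact hql ((Nat.prime_dvd_prime_iff_eq hq.out hl.out).mp h)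

include h4 hχ hq2 in
theorem comp_sq_ne_one : (χ.ringHomComp σ) ^ 2 ≠ 1 := by
  intro h
  apply chi_sq_ne_one l h4 φ χ hχ
  refine MulChar.ext fun t => ?_
  rw [MulChar.pow_apply_coe, MulChar.one_apply_coe]
  have h1 : ((χ.ringHomComp σ) ^ 2) (t : ZMod l) = 1 := by rw [h, MulChar.one_apply_coe]
  rw [MulChar.pow_apply_coe, MulChar.ringHomComp_apply, ← map_pow] at h1
  refine eq_one_of_map_eq_one σ (two_ne_zero_K q hq2) ?_ h1
  have := (hχ t t.ne_zero).1
  calc (χ (t : ZMod l) ^ 2) ^ 4 = (χ (t : ZMod l) ^ 4) ^ 2 := by ring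
    _ = 1 := by rw [this]; norm_num

include h4 hχ hnorm hker hprim hq2 hψ in
/-- The fourth power of the Gauss sum. -/
theorem gauss_fourth : gaussSum (χ.ringHomComp σ) ψ ^ 4 = σ lam ^ 3 * σ (star lam) := by
  set χ' := χ.ringHomComp σ with hχ'
  have hne := comp_sq_ne_one l h4 φ χ hχ q hq2 σ
  rw [← hχ'] at hne
  have hne' : χ' * χ' ≠ 1 := by rwa [← sq]
  have h1 := jacobiSum_mul_nontrivial hne' ψ
  have hχ4 : χ' ^ 4 = 1 := by
    rw [hχ', MulChar.ringHomComp_pow, chi_pow_four l φ χ hχ, MulChar.ringHomComp_one]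
  have h2 : (χ' * χ').IsQuadratic := by
    rw [MulChar.isQuadratic_iff_sq_eq_one, ← sq, ← pow_mul]
    exact hχ4
  have h3 := gaussSum_sq hne' h2 hψ
  have hm1 : (χ' * χ') (-1) = 1 := by
    rw [MulChar.mul_apply, ← sq, hχ', MulChar.ringHomComp_apply, ← map_pow,
      (chi_neg_one l φ χ hχ).1, map_one]
  rw [hm1, one_mul, ZMod.card] at h3
  have hJ : jacobiSum χ' χ' = σ (-χ (-1) * lam) := by
    rw [hχ', jacobiSum_ringHomComp, jacobi_eq l h4 φ χ hχ lam hnorm hker hprim]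
  rw [hJ] at h1
  have hl' : (l : K) = σ lam * σ (star lam) := by
    rw [← map_mul, hnorm, map_natCast]
  have he : σ (χ (-1)) ^ 2 = 1 := by
    rw [← map_pow, (chi_neg_one l φ χ hχ).1, map_one]
  rw [map_mul, map_neg] at h1
  calc gaussSum χ' ψ ^ 4 = (gaussSum χ' ψ * gaussSum χ' ψ) ^ 2 := by ring
    _ = (gaussSum (χ' * χ') ψ) ^ 2 * (σ (χ (-1)) ^ 2 * σ lam ^ 2) := by rw [← h1]; ring
    _ = σ lam ^ 3 * σ (star lam) := by rw [h3, he, hl']; ring

include h4 hχ hnorm hker hprim hq2 hψ hql in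
/-- The quartic law for `q ≡ 1 (mod 4)`, in a field of characteristic `q`. -/
theorem law_one (hq4 : q % 4 = 1) :
    σ lam ^ ((q - 1) / 4) = σ (χ (q : ZMod l)) * σ (star lam) ^ ((q - 1) / 4) := by
  have hG4 := gauss_fourth l h4 φ χ hχ lam hnorm hker hprim q hq2 σ ψ hψ
  set χ' := χ.ringHomComp σ with hχ'
  set G := gaussSum χ' ψ with hG
  have hχ4 : χ' ^ 4 = 1 := by
    rw [hχ', MulChar.ringHomComp_pow, chi_pow_four l φ χ hχ, MulChar.ringHomComp_one]
  have hχq : χ' ^ q = χ' := by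
    have : q = 4 * (q / 4) + 1 := by omega
    rw [this, pow_succ, pow_mul, hχ4, one_pow, one_mul]
  have hqu : IsUnit (q : ZMod l) := by
    rw [isUnit_iff_ne_zero]
    intro h
    rw [ZMod.natCast_eq_zero_iff] at h
    exact hql ((Nat.prime_dvd_prime_iff_eq hl.out hq.out).mp h).symm
  have hfrob : χ' (q : ZMod l) * G ^ q = G := by
    rw [hG, gaussSum_frob q, hχq, AddChar.pow_mulShift]
    have := gaussSum_mulShift χ' ψ hqu.unit
    rw [IsUnit.unit_spec] at this
    exact this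
  have hne' : χ' ≠ 1 := by
    intro h
    apply comp_sq_ne_one l h4 φ χ hχ q hq2 σ
    rw [← hχ', h, one_pow]
  have hG0 : G ≠ 0 := by
    apply gaussSum_ne_zero_of_nontrivial _ hne' hψ
    rw [ZMod.card]; exact l_ne_zero_K l q hql
  set a := (q - 1) / 4 with ha
  have hq' : q = 4 * a + 1 := by omega
  have hGq : G ^ q = (G ^ 4) ^ a * G := by
    calc G ^ q = G ^ (4 * a + 1) := by rw [← hq']
      _ = (G ^ 4) ^ a * G := by rw [pow_succ, pow_mul]
  have h1 : χ' (q : ZMod l) * (G ^ 4) ^ a = 1 := by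
    apply mul_right_cancel₀ hG0
    rw [one_mul, mul_assoc, ← hGq, hfrob]
  rw [hG4, hχ', MulChar.ringHomComp_apply] at h1
  -- `σ lam ^ (q - 1) = 1`
  have hl' : (l : K) = σ lam * σ (star lam) := by
    rw [← map_mul, hnorm, map_natCast]
  have hl0 := l_ne_zero_K (K := K) l q hql
  have hlam0 : σ lam ≠ 0 := by intro h; rw [h, zero_mul] at hl'; exact hl0 hl'
  have hgi : σ gi ^ q = σ gi := by
    have h5 : σ gi ^ 4 = 1 := by
      have := map_gi_sq σ
      calc σ gi ^ 4 = (σ gi ^ 2) ^ 2 := by ring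
        _ = 1 := by rw [this]; norm_num
    rw [hq', pow_succ, pow_mul, h5, one_pow, one_mul]
  have hfix : ∀ z : GaussianInt, σ z ^ q = σ z := by
    intro z
    have e : σ z = ((z.re : ℤ) : K) + ((z.im : ℤ) : K) * σ gi := by
      conv_lhs => rw [eq_re_add_im z]
      rw [map_add, map_mul, map_intCast, map_intCast]
    rw [e, add_pow_char (p := q), mul_pow, hgi]
    have hint : ∀ n : ℤ, ((n : ℤ) : K) ^ q = (n : K) := by
      intro n
      have h6 := ZMod.pow_card (n : ZMod q)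
      have h7 := congrArg (ZMod.castHom (dvd_refl q) K) h6
      rw [map_pow, map_intCast] at h7
      exact h7
    rw [hint, hint]
  have hone : σ lam ^ (4 * a) = 1 := by
    apply mul_right_cancel₀ hlam0
    rw [one_mul, ← pow_succ, ← hq']
    exact hfix lam
  have hcub : (σ lam ^ 3 * σ (star lam)) ^ a * σ lam ^ a = σ (star lam) ^ a := by
    calc (σ lam ^ 3 * σ (star lam)) ^ a * σ lam ^ a = σ lam ^ (4 * a) * σ (star lam) ^ a := by
          rw [mul_pow, ← pow_mul]; ring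
      _ = σ (star lam) ^ a := by rw [hone, one_mul]
  calc σ lam ^ a = (σ (χ (q : ZMod l)) * (σ lam ^ 3 * σ (star lam)) ^ a) * σ lam ^ a := by
        rw [h1, one_mul]
    _ = σ (χ (q : ZMod l)) * ((σ lam ^ 3 * σ (star lam)) ^ a * σ lam ^ a) := by ring
    _ = σ (χ (q : ZMod l)) * σ (star lam) ^ a := by rw [hcub]

include h4 hχ hnorm hker hprim hq2 hψ hql in
/-- The quartic law for `q ≡ 3 (mod 4)`, in a field of characteristic `q`. -/
theorem law_three (hq4 : q % 4 = 3) :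
    σ (star lam) ^ ((q + 1) / 4) = σ (χ (-(q : ZMod l))) * σ lam ^ ((q + 1) / 4) := by
  have hG4 := gauss_fourth l h4 φ χ hχ lam hnorm hker hprim q hq2 σ ψ hψ
  set χ' := χ.ringHomComp σ with hχ'
  set G := gaussSum χ' ψ with hG
  have hχ4 : χ' ^ 4 = 1 := by
    rw [hχ', MulChar.ringHomComp_pow, chi_pow_four l φ χ hχ, MulChar.ringHomComp_one]
  have hχq : χ' ^ q = χ'⁻¹ := by
    have : q = 4 * (q / 4) + 3 := by omega
    rw [this, pow_add, pow_mul, hχ4, one_pow, one_mul]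
    apply eq_inv_of_mul_eq_one_left
    rw [← pow_succ, hχ4]
  have hqu : IsUnit (q : ZMod l) := by
    rw [isUnit_iff_ne_zero]
    intro h
    rw [ZMod.natCast_eq_zero_iff] at h
    exact hql ((Nat.prime_dvd_prime_iff_eq hl.out hq.out).mp h).symm
  have hne' : χ' ≠ 1 := by
    intro h
    apply comp_sq_ne_one l h4 φ χ hχ q hq2 σ
    rw [← hχ', h, one_pow]
  -- `χ⁻¹(q) G^q = G(χ⁻¹)`
  have hfrob : χ'⁻¹ (q : ZMod l) * G ^ q = gaussSum χ'⁻¹ ψ := by
    rw [hG, gaussSum_frob q, hχq, AddChar.pow_mulShift]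
    have := gaussSum_mulShift χ'⁻¹ ψ hqu.unit
    rw [IsUnit.unit_spec] at this
    exact this
  have hinv : χ' (q : ZMod l) * χ'⁻¹ (q : ZMod l) = 1 := by
    rw [← MulChar.mul_apply, mul_inv_cancel, MulChar.one_apply hqu]
  have hprod : G * gaussSum χ'⁻¹ ψ = χ' (-1) * (l : K) := by
    have h1 := gaussSum_mul_gaussSum_eq_card hne' hψ
    rw [ZMod.card] at h1
    have h2 := mul_gaussSum_inv_eq_gaussSum χ'⁻¹ ψ
    have h3 : χ'⁻¹ (-1) = χ' (-1) := by
      rw [MulChar.inv_apply', inv_neg_one]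
    rw [h3] at h2
    rw [← h2, ← h1]
    ring
  set a := (q + 1) / 4 with ha
  have hq' : q + 1 = 4 * a := by omega
  have hGq1 : (G ^ 4) ^ a = χ' (-(q : ZMod l)) * (l : K) := by
    have e1 : (G ^ 4) ^ a = G ^ q * G := by
      rw [← pow_mul, ← hq', pow_succ]
    have e2 : G ^ q = χ' (q : ZMod l) * gaussSum χ'⁻¹ ψ := by
      rw [← hfrob, ← mul_assoc, hinv, one_mul]
    have e3 : χ' (-(q : ZMod l)) = χ' (-1) * χ' (q : ZMod l) := by
      rw [← map_mul]; congr 1; ring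
    rw [e1, e2, e3]
    linear_combination χ' (q : ZMod l) * hprod
  rw [hG4, hχ', MulChar.ringHomComp_apply] at hGq1
  have hl' : (l : K) = σ lam * σ (star lam) := by
    rw [← map_mul, hnorm, map_natCast]
  have hl0 := l_ne_zero_K (K := K) l q hql
  have hlam0 : σ lam ≠ 0 := by intro h; rw [h, zero_mul] at hl'; exact hl0 hl'
  have hstar0 : σ (star lam) ≠ 0 := by intro h; rw [h, mul_zero] at hl'; exact hl0 hl'
  have hgi : σ gi ^ q = -σ gi := by
    have h5 : σ gi ^ 4 = 1 := by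
      have := map_gi_sq σ
      calc σ gi ^ 4 = (σ gi ^ 2) ^ 2 := by ring
        _ = 1 := by rw [this]; norm_num
    have hq3 : q = 4 * (q / 4) + 3 := by omega
    rw [hq3, pow_add, pow_mul, h5, one_pow, one_mul]
    have := map_gi_sq σ
    linear_combination σ gi * this
  have hfrobz : ∀ z : GaussianInt, σ z ^ q = σ (star z) := by
    intro z
    have e : σ z = ((z.re : ℤ) : K) + ((z.im : ℤ) : K) * σ gi := by
      conv_lhs => rw [eq_re_add_im z]
      rw [map_add, map_mul, map_intCast, map_intCast]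
    have e' : σ (star z) = ((z.re : ℤ) : K) - ((z.im : ℤ) : K) * σ gi := by
      conv_lhs => rw [eq_re_add_im (star z)]
      rw [map_add, map_mul, map_intCast, map_intCast, Zsqrtd.re_star, Zsqrtd.im_star]
      push_cast; ring
    rw [e, e', add_pow_char (p := q), mul_pow, hgi]
    have hint : ∀ n : ℤ, ((n : ℤ) : K) ^ q = (n : K) := by
      intro n
      have h6 := ZMod.pow_card (n : ZMod q)
      have h7 := congrArg (ZMod.castHom (dvd_refl q) K) h6
      rw [map_pow, map_intCast] at h7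
      exact h7
    rw [hint, hint]
    ring
  have hone : σ lam ^ (4 * a) = σ lam * σ (star lam) := by
    rw [← hq', pow_succ, hfrobz]; ring
  have hcub : (σ lam ^ 3 * σ (star lam)) ^ a * σ lam ^ a
      = σ lam * σ (star lam) * σ (star lam) ^ a := by
    calc (σ lam ^ 3 * σ (star lam)) ^ a * σ lam ^ a = σ lam ^ (4 * a) * σ (star lam) ^ a := by
          rw [mul_pow, ← pow_mul]; ring
      _ = σ lam * σ (star lam) * σ (star lam) ^ a := by rw [hone]
  have hls0 : σ lam * σ (star lam) ≠ 0 := mul_ne_zero hlam0 hstar0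
  apply mul_left_cancel₀ hls0
  rw [← hcub, hGq1, hl']
  ring

end

end Pool.Agent.Lib.MP_f2f5f5_nt
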