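import Mathlib
import Pool.Agent.Lib.MP_f2f5f5_nt.Law

set_option autoImplicit false

namespace Pool.Agent.Lib.MP_f2f5f5_nt

open Finset

/-- `u` is the quartic residue symbol of `lam` modulo the odd rational prime `q`. -/
def Sym (lam : GaussianInt) (q : ℕ) (u : GaussianInt) : Prop :=
  u ^ 4 = 1 ∧
  (q % 4 = 1 → (q : GaussianInt) ∣ lam ^ ((q - 1) / 4) - u * star lam ^ ((q - 1) / 4)) ∧
  (q % 4 = 3 → (q : GaussianInt) ∣ star lam ^ ((q + 1) / 4) - u * lam ^ ((q + 1) / 4))

section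

variable (q : ℕ) [hq : Fact q.Prime] (hq2 : q ≠ 2)

theorem natCast_dvd_iff (n : ℕ) (z : GaussianInt) :
    (n : GaussianInt) ∣ z ↔ (n : ℤ) ∣ z.re ∧ (n : ℤ) ∣ z.im := by
  have := Zsqrtd.intCast_dvd (d := -1) (n : ℤ) z
  simpa using this

include hq2 in
theorem dvd_of_map_zero {K : Type*} [Field K] [CharP K q] (σ : GaussianInt →+* K)
    {z : GaussianInt} (h1 : σ z = 0) (h2 : σ (star z) = 0) : (q : GaussianInt) ∣ z := by
  have h20 := two_ne_zero_K (K := K) q hq2
  have hg0 : σ gi ≠ 0 := by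
    intro h
    have := map_gi_sq σ
    rw [h] at this
    have h3 : (1 : K) = 0 := by linear_combination this
    exact one_ne_zero h3
  have e : σ z = ((z.re : ℤ) : K) + ((z.im : ℤ) : K) * σ gi := by
    conv_lhs => rw [eq_re_add_im z]
    rw [map_add, map_mul, map_intCast, map_intCast]
  have e' : σ (star z) = ((z.re : ℤ) : K) - ((z.im : ℤ) : K) * σ gi := by
    conv_lhs => rw [eq_re_add_im (star z)]
    rw [map_add, map_mul, map_intCast, map_intCast, Zsqrtd.re_star, Zsqrtd.im_star]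
    push_cast; ring
  rw [h1] at e
  rw [h2] at e'
  have h3 : ((z.re : ℤ) : K) = 0 := by
    apply mul_left_cancel₀ h20
    linear_combination -e - e'
  have h4 : ((z.im : ℤ) : K) = 0 := by
    apply mul_left_cancel₀ (mul_ne_zero h20 hg0)
    linear_combination -e + e'
  rw [natCast_dvd_iff]
  exact ⟨(CharP.intCast_eq_zero_iff K q _).mp h3, (CharP.intCast_eq_zero_iff K q _).mp h4⟩

include hq2 in
theorem dvd_of_map {K : Type*} [Field K] [CharP K q] (σ : GaussianInt →+* K)
    {x u : GaussianInt} (hu : u ^ 4 = 1) (h : σ x = σ u * σ (star x)) :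
    (q : GaussianInt) ∣ x - u * star x := by
  apply dvd_of_map_zero q hq2 σ
  · rw [map_sub, map_mul, h, sub_self]
  · rw [star_sub, star_mul', star_star, map_sub, map_mul, h]
    have h1 := star_mul_self_of_four hu
    have h2 : σ (star u) * σ u = 1 := by rw [← map_mul, h1, map_one]
    linear_combination -σ (star x) * h2

end

theorem exists_hom (K : Type*) [Field K] [IsAlgClosed K] : Nonempty (GaussianInt →+* K) := by
  obtain ⟨j, hj⟩ := IsAlgClosed.exists_pow_nat_eq (-1 : K) (n := 2) (by norm_num)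
  exact ⟨Zsqrtd.lift ⟨j, by rw [← sq, hj]; simp⟩⟩

theorem exists_field (l q : ℕ) [hl : Fact l.Prime] [hq : Fact q.Prime] (hql : q ≠ l) :
    ∃ (K : Type) (_ : Field K) (_ : CharP K q) (_ : GaussianInt →+* K)
      (ψ : AddChar (ZMod l) K), ψ.IsPrimitive := by
  let K0 := AlgebraicClosure (ZMod q)
  have : CharP K0 q := charP_of_injective_algebraMap (algebraMap (ZMod q) K0).injective q
  have hl0 : ((⟨l, hl.out.pos⟩ : ℕ+) : K0) ≠ 0 := by
    intro h
    have h' : ((l : ℕ) : K0) = 0 := h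
    rw [CharP.cast_eq_zero_iff K0 q] at h'
    exact hql ((Nat.prime_dvd_prime_iff_eq hq.out hl.out).mp h')
  let ψ := AddChar.primitiveZModChar ⟨l, hl.out.pos⟩ K0 hl0
  obtain ⟨σ⟩ := exists_hom K0
  have : CharP (CyclotomicField ψ.n K0) q :=
    charP_of_injective_algebraMap (algebraMap K0 (CyclotomicField ψ.n K0)).injective q
  exact ⟨CyclotomicField ψ.n K0, inferInstance, this, (algebraMap K0 _).comp σ, ψ.char, ψ.prim⟩

/-- The quartic law. -/
theorem law_sym (l : ℕ) [hl : Fact l.Prime] (h4 : l % 4 = 1) (φ : GaussianInt →+* ZMod l)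
    (χ : MulChar (ZMod l) GaussianInt)
    (hχ : ∀ t : ZMod l, t ≠ 0 → χ t ^ 4 = 1 ∧ φ (χ t) = t ^ ((l - 1) / 4))
    (lam : GaussianInt) (hnorm : lam * star lam = (l : GaussianInt))
    (hker : ∀ z, φ z = 0 → lam ∣ z) (hprim : Primary lam)
    (q : ℕ) [hq : Fact q.Prime] (hq2 : q ≠ 2) (hql : q ≠ l) :
    (q % 4 = 1 → Sym lam q (χ (q : ZMod l))) ∧ (q % 4 = 3 → Sym lam q (χ (-(q : ZMod l)))) := by
  obtain ⟨K, _, _, σ, ψ, hψ⟩ := exists_field l q hql
  have hqu : (q : ZMod l) ≠ 0 := by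
    intro h
    rw [ZMod.natCast_eq_zero_iff] at h
    exact hql ((Nat.prime_dvd_prime_iff_eq hl.out hq.out).mp h).symm
  constructor
  · intro hq4
    refine ⟨(hχ _ hqu).1, fun _ => ?_, fun h => by omega⟩
    rw [← star_pow]
    apply dvd_of_map q hq2 σ (hχ _ hqu).1
    rw [star_pow, map_pow, map_pow]
    exact law_one l h4 φ χ hχ lam hnorm hker hprim q hq2 hql σ ψ hψ hq4
  · intro hq4
    have hqu' : -(q : ZMod l) ≠ 0 := neg_ne_zero.mpr hqu
    refine ⟨(hχ _ hqu').1, fun h => by omega, fun _ => ?_⟩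
    have e : lam ^ ((q + 1) / 4) = star (star lam ^ ((q + 1) / 4)) := by
      rw [star_pow, star_star]
    rw [e]
    apply dvd_of_map q hq2 σ (hχ _ hqu').1
    rw [star_pow, star_star, map_pow, map_pow]
    exact law_three l h4 φ χ hχ lam hnorm hker hprim q hq2 hql σ ψ hψ hq4

section

variable (q : ℕ) [hq : Fact q.Prime] (hq2 : q ≠ 2)

include hq2 in
theorem two_ne_zero_quot : (2 : GaussianInt ⧸ Ideal.span {(q : GaussianInt)}) ≠ 0 := by
  intro h
  have h1 : (Ideal.Quotient.mk (Ideal.span {(q : GaussianInt)})) 2 = 0 := by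
    rw [map_ofNat]; exact h
  rw [Ideal.Quotient.eq_zero_iff_mem, Ideal.mem_span_singleton, natCast_dvd_iff] at h1
  have h2 : (q : ℤ) ∣ 2 := h1.1
  have h3 : q ∣ 2 := by exact_mod_cast h2
  exact hq2 ((Nat.prime_dvd_prime_iff_eq hq.out Nat.prime_two).mp h3)

include hq2 in
/-- Uniqueness of the symbol. -/
theorem sym_unique {lam u v : GaussianInt} (hcop : ¬ (q : ℤ) ∣ lam.norm)
    (hu : Sym lam q u) (hv : Sym lam q v) : u = v := by
  have hqodd : q % 4 = 1 ∨ q % 4 = 3 := by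
    have := hq.out.eq_two_or_odd
    omega
  have hc : IsCoprime (q : ℤ) lam.norm :=
    (Nat.prime_iff_prime_int.mp hq.out).coprime_iff_not_dvd.mpr hcop
  obtain ⟨r, s, hrs⟩ := hc
  have hrs' : (r : GaussianInt) * q + s * (lam * star lam) = 1 := by
    rw [← Zsqrtd.norm_eq_mul_conj]; exact_mod_cast hrs
  have hlam : IsCoprime (q : GaussianInt) lam := ⟨r, s * star lam, by linear_combination hrs'⟩
  have hslam : IsCoprime (q : GaussianInt) (star lam) := ⟨r, s * lam, by linear_combination hrs'⟩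
  have key : (q : GaussianInt) ∣ u - v := by
    rcases hqodd with h | h
    · have h1 := dvd_sub (hv.2.1 h) (hu.2.1 h)
      have h2 : (q : GaussianInt) ∣ (u - v) * star lam ^ ((q - 1) / 4) := by
        convert h1 using 1; ring
      exact (hslam.pow_right (n := (q - 1) / 4)).dvd_of_dvd_mul_right h2
    · have h1 := dvd_sub (hv.2.2 h) (hu.2.2 h)
      have h2 : (q : GaussianInt) ∣ (u - v) * lam ^ ((q + 1) / 4) := by
        convert h1 using 1; ring
      exact (hlam.pow_right (n := (q + 1) / 4)).dvd_of_dvd_mul_right h2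
  apply map_inj (Ideal.Quotient.mk (Ideal.span {(q : GaussianInt)})) (two_ne_zero_quot q hq2)
    hu.1 hv.1
  rw [Ideal.Quotient.eq, Ideal.mem_span_singleton]
  exact key

omit hq in
theorem sym_mul {lam mu u v : GaussianInt} (hu : Sym lam q u) (hv : Sym mu q v) :
    Sym (lam * mu) q (u * v) := by
  refine ⟨by rw [mul_pow, hu.1, hv.1, one_mul], fun h => ?_, fun h => ?_⟩
  · obtain ⟨a, ha⟩ := hu.2.1 h
    obtain ⟨b, hb⟩ := hv.2.1 h
    rw [star_mul', mul_pow, mul_pow]
    refine ⟨a * mu ^ ((q - 1) / 4) + u * star lam ^ ((q - 1) / 4) * b, ?_⟩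
    linear_combination mu ^ ((q - 1) / 4) * ha + u * star lam ^ ((q - 1) / 4) * hb
  · obtain ⟨a, ha⟩ := hu.2.2 h
    obtain ⟨b, hb⟩ := hv.2.2 h
    rw [star_mul', mul_pow, mul_pow]
    refine ⟨a * star mu ^ ((q + 1) / 4) + u * lam ^ ((q + 1) / 4) * b, ?_⟩
    linear_combination star mu ^ ((q + 1) / 4) * ha + u * lam ^ ((q + 1) / 4) * hb

omit hq in
theorem star_dvd_star {lam mu : GaussianInt} (h : (q : GaussianInt) ∣ lam - mu) :
    (q : GaussianInt) ∣ star lam - star mu := by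
  obtain ⟨c, hc⟩ := h
  refine ⟨star c, ?_⟩
  have := congrArg star hc
  rw [star_sub, star_mul', star_natCast] at this
  exact this

omit hq in
theorem sym_congr {lam mu u : GaussianInt} (h : (q : GaussianInt) ∣ lam - mu)
    (hu : Sym lam q u) : Sym mu q u := by
  have hs := star_dvd_star q h
  refine ⟨hu.1, fun h4 => ?_, fun h4 => ?_⟩
  · have h1 := h.trans (sub_dvd_pow_sub_pow lam mu ((q - 1) / 4))
    have h2 := hs.trans (sub_dvd_pow_sub_pow (star lam) (star mu) ((q - 1) / 4))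
    obtain ⟨a, ha⟩ := hu.2.1 h4
    obtain ⟨b, hb⟩ := h1
    obtain ⟨c, hc⟩ := h2
    exact ⟨a - b + u * c, by linear_combination ha - hb + u * hc⟩
  · have h1 := h.trans (sub_dvd_pow_sub_pow lam mu ((q + 1) / 4))
    have h2 := hs.trans (sub_dvd_pow_sub_pow (star lam) (star mu) ((q + 1) / 4))
    obtain ⟨a, ha⟩ := hu.2.2 h4
    obtain ⟨b, hb⟩ := h1
    obtain ⟨c, hc⟩ := h2
    exact ⟨a - c + u * b, by linear_combination ha - hc + u * hb⟩

omit hq in
theorem sym_int (n : ℤ) : Sym (n : GaussianInt) q 1 := by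
  have hs : star (n : GaussianInt) = n := by ext <;> simp
  refine ⟨one_pow 4, fun _ => ?_, fun _ => ?_⟩ <;> rw [hs] <;> simp

/-- The exponent `(q* - 1)/4` up to sign. -/
def ex (q : ℕ) : ℕ := if q % 4 = 1 then (q - 1) / 4 else (q + 1) / 4

omit hq in
theorem sym_gi : Sym gi q ((-1) ^ (ex q)) := by
  have hs := star_gi
  refine ⟨by rw [← pow_mul, mul_comm, pow_mul]; norm_num, fun h => ?_, fun h => ?_⟩
  · have e : ex q = (q - 1) / 4 := by simp [ex, h]
    rw [hs, e, ← mul_pow, neg_one_mul, neg_neg, sub_self]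
    exact dvd_zero _
  · have e : ex q = (q + 1) / 4 := by simp [ex, h]
    rw [hs, e, ← mul_pow, neg_one_mul, sub_self]
    exact dvd_zero _

end

end Pool.Agent.Lib.MP_f2f5f5_nt
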