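import Mathlib
import Pool.Agent.Lib.MP_f2f5f5_nt.Sym

set_option autoImplicit false

namespace Pool.Agent.Lib.MP_f2f5f5_nt

open Finset

/-- `n* = (-1)^((n-1)/2) n` for odd `n`. -/
def st (n : ℤ) : ℤ := ZMod.χ₄ n * n

/-- The composite quartic law for `β`: `n ↦ (β/n)₄` is a character of `n*` modulo the norm. -/
def LawFor (β : GaussianInt) : Prop := ∃ X : ℤ → GaussianInt,
  X 1 = 1 ∧ (∀ m n, X (m * n) = X m * X n) ∧ (∀ m n : ℤ, β.norm ∣ m - n → X m = X n) ∧
  (∀ n, IsCoprime n β.norm → X n ^ 4 = 1) ∧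
  (∀ q : ℕ, q.Prime → q ≠ 2 → ¬ (q : ℤ) ∣ β.norm → Sym β q (X (st q))) ∧
  X 2 ^ 2 = X (-1) ∧ (β.norm % 8 = 1 ∧ X (-1) = 1 ∨ β.norm % 8 = 5 ∧ X (-1) = -1)

theorem st_one (q : ℕ) (h : q % 4 = 1) : st q = q := by
  unfold st
  have : ZMod.χ₄ ((q : ℤ) : ZMod 4) = 1 := by
    rw [ZMod.χ₄_int_one_mod_four]; omega
  rw [this, one_mul]

theorem st_three (q : ℕ) (h : q % 4 = 3) : st q = -q := by
  unfold st
  have : ZMod.χ₄ ((q : ℤ) : ZMod 4) = -1 := by
    rw [ZMod.χ₄_int_three_mod_four]; omega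
  rw [this]; ring

theorem lawFor_mul {α β : GaussianInt} (hα : LawFor α) (hβ : LawFor β) : LawFor (α * β) := by
  obtain ⟨X, X0, X1, X2, X3, X4, X5, X6⟩ := hα
  obtain ⟨Y, Y0, Y1, Y2, Y3, Y4, Y5, Y6⟩ := hβ
  refine ⟨fun n => X n * Y n, ?_, ?_, ?_, ?_, ?_, ?_, ?_⟩
  · simp [X0, Y0]
  · intro m n; simp only [X1, Y1]; ring
  · intro m n h
    rw [Zsqrtd.norm_mul] at h
    simp only
    rw [X2 m n ((Dvd.intro _ rfl).trans h), Y2 m n ((Dvd.intro_left _ rfl).trans h)]
  · intro n h
    rw [Zsqrtd.norm_mul] at h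
    simp only
    rw [mul_pow, X3 n h.of_mul_right_left, Y3 n h.of_mul_right_right, one_mul]
  · intro q hq hq2 h
    rw [Zsqrtd.norm_mul] at h
    exact sym_mul q (X4 q hq hq2 (fun h' => h (h'.mul_right _)))
      (Y4 q hq hq2 (fun h' => h (h'.mul_left _)))
  · simp only; rw [mul_pow, X5, Y5]
  · rw [Zsqrtd.norm_mul]
    simp only
    rcases X6 with ⟨a1, a2⟩ | ⟨a1, a2⟩ <;> rcases Y6 with ⟨b1, b2⟩ | ⟨b1, b2⟩
    · left; refine ⟨by rw [Int.mul_emod, a1, b1]; rfl, by rw [a2, b2]; ring⟩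
    · right; refine ⟨by rw [Int.mul_emod, a1, b1]; rfl, by rw [a2, b2]; ring⟩
    · right; refine ⟨by rw [Int.mul_emod, a1, b1]; rfl, by rw [a2, b2]; ring⟩
    · left; refine ⟨by rw [Int.mul_emod, a1, b1]; rfl, by rw [a2, b2]; ring⟩

theorem lawFor_int (n : ℤ) (hn : n % 2 = 1) : LawFor (n : GaussianInt) := by
  refine ⟨fun _ => 1, rfl, fun _ _ => (mul_one 1).symm, fun _ _ _ => rfl,
    fun _ _ => one_pow 4, fun q _ _ _ => sym_int q n, by norm_num, Or.inl ⟨?_, rfl⟩⟩
  rw [Zsqrtd.norm_intCast]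
  have h : n % 8 = 1 ∨ n % 8 = 3 ∨ n % 8 = 5 ∨ n % 8 = 7 := by omega
  rw [Int.mul_emod]
  rcases h with h | h | h | h <;> rw [h] <;> rfl

/-- A Gaussian integer of prime norm gives a ring homomorphism onto the prime field. -/
theorem exists_phi (l : ℕ) [hl : Fact l.Prime] (lam : GaussianInt)
    (hnorm : lam * star lam = (l : GaussianInt)) :
    ∃ φ : GaussianInt →+* ZMod l, φ lam = 0 ∧ ∀ z, φ z = 0 → lam ∣ z := by
  have hN : lam.re * lam.re + lam.im * lam.im = l := by
    have h1 : ((lam.norm : ℤ) : GaussianInt) = ((l : ℤ) : GaussianInt) := by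
      rw [Zsqrtd.norm_eq_mul_conj, hnorm]; norm_cast
    have h2 : lam.norm = l := by exact_mod_cast h1
    rw [Zsqrtd.norm_def] at h2; linarith
  have hl2 := hl.out.two_le
  set a := lam.re with ha
  set b := lam.im with hb
  have hb0 : ((b : ℤ) : ZMod l) ≠ 0 := by
    intro h
    rw [ZMod.intCast_zmod_eq_zero_iff_dvd] at h
    have h1 : (l : ℤ) ∣ a * a := by
      have : a * a = l - b * b := by linarith
      rw [this]; exact dvd_sub (dvd_refl _) (h.mul_right _)
    have h2 : (l : ℤ) ∣ a := by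
      rcases (Nat.prime_iff_prime_int.mp hl.out).dvd_or_dvd h1 with h | h <;> exact h
    obtain ⟨u, hu⟩ := h
    obtain ⟨v, hv⟩ := h2
    rw [hu, hv] at hN
    have h3 : (l : ℤ) * (u * u + v * v) = 1 := by
      have hl0 : (l : ℤ) ≠ 0 := by exact_mod_cast hl.out.ne_zero
      apply mul_left_cancel₀ hl0
      linarith
    have h4 : (l : ℤ) ∣ 1 := ⟨_, h3.symm⟩
    have h5 : l ∣ 1 := by exact_mod_cast h4
    have := Nat.le_of_dvd (by norm_num) h5
    omega
  have hNz : ((a : ℤ) : ZMod l) * a + ((b : ℤ) : ZMod l) * b = 0 := by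
    have : (((a * a + b * b : ℤ)) : ZMod l) = 0 := by rw [hN]; simp
    push_cast at this; exact this
  let j : ZMod l := -(a : ZMod l) / (b : ZMod l)
  have hjb : j * b = -(a : ZMod l) := div_mul_cancel₀ _ hb0
  have hj : j * j = ((-1 : ℤ) : ZMod l) := by
    apply mul_right_cancel₀ hb0
    apply mul_right_cancel₀ hb0
    push_cast
    linear_combination (j * b - a) * hjb + hNz
  refine ⟨Zsqrtd.lift ⟨j, hj⟩, ?_, ?_⟩
  · rw [Zsqrtd.lift_apply_apply]
    change (a : ZMod l) + (b : ZMod l) * j = 0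
    linear_combination hjb
  · intro z hz
    rw [Zsqrtd.lift_apply_apply] at hz
    change (z.re : ZMod l) + (z.im : ZMod l) * j = 0 at hz
    have h1 : ((z.im * a - z.re * b : ℤ) : ZMod l) = 0 := by
      push_cast
      linear_combination -b * hz + z.im * hjb
    have h2 : ((z.re * a + z.im * b : ℤ) : ZMod l) = 0 := by
      push_cast
      apply mul_right_cancel₀ hb0
      linear_combination a * b * hz - (z.im : ZMod l) * a * hjb + (z.im : ZMod l) * hNz
    rw [ZMod.intCast_zmod_eq_zero_iff_dvd] at h1 h2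
    obtain ⟨u, hu⟩ := h1
    obtain ⟨v, hv⟩ := h2
    have hlam0 : star lam ≠ 0 := by
      intro h
      rw [h, mul_zero] at hnorm
      have : (l : GaussianInt) ≠ 0 := by exact_mod_cast hl.out.ne_zero
      exact this hnorm.symm
    refine ⟨⟨v, u⟩, ?_⟩
    apply mul_right_cancel₀ hlam0
    have h3 : lam * ⟨v, u⟩ * star lam = (l : GaussianInt) * ⟨v, u⟩ := by rw [← hnorm]; ring
    rw [h3]
    ext
    · simp
      rw [← ha, ← hb]
      linarith
    · simp
      rw [← ha, ← hb]
      linarith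

theorem sq_add_sq_mod_four (a b : ℤ) (h : (a * a + b * b) % 2 = 1) :
    (a * a + b * b) % 4 = 1 := by
  have ha : a % 4 = 0 ∨ a % 4 = 1 ∨ a % 4 = 2 ∨ a % 4 = 3 := by omega
  have hb : b % 4 = 0 ∨ b % 4 = 1 ∨ b % 4 = 2 ∨ b % 4 = 3 := by omega
  have h1 : (a * a + b * b) % 4 = ((a % 4) * (a % 4) + (b % 4) * (b % 4)) % 4 := by
    simp [Int.add_emod, Int.mul_emod]
  generalize a * a + b * b = S at h h1 ⊢
  rcases ha with ha | ha | ha | ha <;> rcases hb with hb | hb | hb | hb <;>
    rw [ha, hb] at h1 <;> omega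

theorem norm_mod_four (z : GaussianInt) (h : z.norm % 2 = 1) : z.norm % 4 = 1 := by
  have e : z.norm = z.re * z.re + z.im * z.im := by rw [Zsqrtd.norm_def]; ring
  rw [e] at h ⊢
  exact sq_add_sq_mod_four _ _ h

theorem lawFor_prime (l : ℕ) [hl : Fact l.Prime] (lam : GaussianInt)
    (hnorm : lam * star lam = (l : GaussianInt)) (hl2 : l ≠ 2) (hprim : Primary lam) :
    LawFor lam := by
  have hN : lam.norm = l := by
    have h1 : ((lam.norm : ℤ) : GaussianInt) = ((l : ℤ) : GaussianInt) := by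
      rw [Zsqrtd.norm_eq_mul_conj, hnorm]; norm_cast
    exact_mod_cast h1
  have h4 : l % 4 = 1 := by
    have h1 := norm_mod_four lam (by
      rw [hN]
      have := hl.out.eq_two_or_odd
      omega)
    rw [hN] at h1
    omega
  obtain ⟨φ, hφ0, hker⟩ := exists_phi l lam hnorm
  obtain ⟨χ, hχ⟩ := exists_chi l h4 φ
  refine ⟨fun n => χ (n : ZMod l), by simp, fun m n => by push_cast; exact map_mul _ _ _, ?_, ?_,
    ?_, ?_, ?_⟩
  · intro m n h
    rw [hN] at h
    simp only
    congr 1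
    rw [← sub_eq_zero]
    have := (ZMod.intCast_zmod_eq_zero_iff_dvd (m - n) l).mpr h
    push_cast at this
    exact this
  · intro n h
    rw [hN] at h
    apply (hχ _ _).1
    intro h0
    rw [ZMod.intCast_zmod_eq_zero_iff_dvd] at h0
    have := h.isUnit_of_dvd' h0 (dvd_refl _)
    rw [Int.isUnit_iff_natAbs_eq] at this
    simp at this
    exact hl.out.one_lt.ne' this
  · intro q hq hq2 h
    rw [hN] at h
    have : Fact q.Prime := ⟨hq⟩
    have hql : q ≠ l := by rintro rfl; exact h (dvd_refl _)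
    have hlaw := law_sym l h4 φ χ hχ lam hnorm hker hprim q hq2 hql
    have hqodd : q % 4 = 1 ∨ q % 4 = 3 := by
      have := hq.eq_two_or_odd
      omega
    rcases hqodd with h | h
    · simp only [st_one q h]
      have := hlaw.1 h
      simpa using this
    · simp only [st_three q h]
      have := hlaw.2 h
      simpa using this
  · have := chi_two_sq l h4 φ χ hχ
    simpa using this
  · have h1 := (chi_neg_one l φ χ hχ).2
    have h2 := (hχ (-1) (neg_ne_zero.mpr one_ne_zero)).1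
    have h20 := two_ne_zero' l h4
    have e : χ (((-1 : ℤ)) : ZMod l) = χ (-1) := by simp
    simp only [e]
    rw [hN]
    have h8 : l % 8 = 1 ∨ l % 8 = 5 := by omega
    rcases h8 with h8 | h8
    · left
      refine ⟨by omega, ?_⟩
      apply eq_one_of_map_eq_one φ h20 h2
      rw [h1]
      apply Even.neg_one_pow
      rw [Nat.even_iff]; omega
    · right
      refine ⟨by omega, ?_⟩
      have h3 : -χ (-1) = 1 := by
        apply eq_one_of_map_eq_one φ h20
        · rw [neg_pow, h2]; norm_num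
        · rw [map_neg, h1, Odd.neg_one_pow]
          · ring
          · rw [Nat.odd_iff]; omega
      linear_combination -h3

/-- Gaussian integers with odd real part and even imaginary part. -/
def Good (z : GaussianInt) : Prop := z.re % 2 = 1 ∧ z.im % 2 = 0

theorem primary_of (x y : ℤ) (hy : y % 2 = 0) (hxy : (x + y) % 4 = 1) : Primary ⟨x, y⟩ := by
  refine ⟨⟨(x - 1 + y) / 4, y / 2 - (x - 1 + y) / 4⟩, ?_⟩
  have h1 : x - 1 + y = 4 * ((x - 1 + y) / 4) := by omega
  have h2 : y = 2 * (y / 2) := by omega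
  set k := (x - 1 + y) / 4
  set m := y / 2
  ext
  · simp [gi]
    linarith
  · simp [gi]
    linarith

theorem good_of_primary {z : GaussianInt} (h : Primary z) : Good z := by
  obtain ⟨c, hc⟩ := h
  have h1 := congrArg Zsqrtd.re hc
  have h2 := congrArg Zsqrtd.im hc
  simp [gi] at h1 h2
  constructor <;> omega

theorem exists_primary (z : GaussianInt) (h : z.norm % 2 = 1) :
    ∃ u : GaussianInt, u ^ 4 = 1 ∧ Primary (u * z) := by
  have hg4 : gi ^ 4 = 1 := by
    have : gi ^ 4 = (gi ^ 2) ^ 2 := by ring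
    rw [this, gi_pow_two]; norm_num
  rw [Zsqrtd.norm_def] at h
  obtain ⟨a, b⟩ := z
  simp only at h
  have e : a * a - -1 * b * b = a * a + b * b := by ring
  rw [e] at h
  have hpar : (a % 2 = 1 ∧ b % 2 = 0) ∨ (a % 2 = 0 ∧ b % 2 = 1) := by
    have ha : a % 2 = 0 ∨ a % 2 = 1 := by omega
    have hb : b % 2 = 0 ∨ b % 2 = 1 := by omega
    have h1 : (a * a + b * b) % 2 = ((a % 2) * (a % 2) + (b % 2) * (b % 2)) % 2 := by
      simp [Int.add_emod, Int.mul_emod]
    rcases ha with ha | ha <;> rcases hb with hb | hb <;> rw [ha, hb] at h1 <;> norm_num at h1 <;>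
      omega
  rcases hpar with ⟨ha, hb⟩ | ⟨ha, hb⟩
  · have h4 : (a + b) % 4 = 1 ∨ (a + b) % 4 = 3 := by omega
    rcases h4 with h4 | h4
    · exact ⟨1, one_pow 4, by rw [one_mul]; exact primary_of a b hb h4⟩
    · refine ⟨-1, by norm_num, ?_⟩
      have e : (-1 : GaussianInt) * ⟨a, b⟩ = ⟨-a, -b⟩ := by ext <;> simp
      rw [e]
      exact primary_of _ _ (by omega) (by omega)
  · have h4 : (-b + a) % 4 = 1 ∨ (-b + a) % 4 = 3 := by omega
    rcases h4 with h4 | h4
    · refine ⟨gi, hg4, ?_⟩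
      have e : gi * ⟨a, b⟩ = ⟨-b, a⟩ := by ext <;> simp [gi]
      rw [e]
      exact primary_of _ _ (by omega) (by omega)
    · refine ⟨-gi, by rw [neg_pow, hg4]; norm_num, ?_⟩
      have e : -gi * ⟨a, b⟩ = ⟨b, -a⟩ := by ext <;> simp [gi]
      rw [e]
      exact primary_of _ _ (by omega) (by omega)

theorem good_mul {a b : GaussianInt} (ha : Good a) (hb : Good b) : Good (a * b) := by
  obtain ⟨a1, a2⟩ := ha
  obtain ⟨b1, b2⟩ := hb
  constructor
  · simp [Int.add_emod, Int.mul_emod, a1, a2, b1, b2]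
  · simp [Int.add_emod, Int.mul_emod, a1, a2, b1, b2]

theorem lawFor_neg {β : GaussianInt} (h : LawFor β) : LawFor (-β) := by
  have := lawFor_mul (lawFor_int (-1) (by norm_num)) h
  simpa using this

theorem good_neg {β : GaussianInt} (h : Good β) : Good (-β) := by
  obtain ⟨a1, a2⟩ := h
  constructor <;> simp <;> omega

/-- The alternative for odd Gaussian integers. -/
def Alt (β : GaussianInt) : Prop := (Good β ∧ LawFor β) ∨ (Good (gi * β) ∧ LawFor (gi * β))

theorem alt_mul {a b : GaussianInt} (ha : Alt a) (hb : Alt b) : Alt (a * b) := by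
  rcases ha with ⟨ga, la⟩ | ⟨ga, la⟩ <;> rcases hb with ⟨gb, lb⟩ | ⟨gb, lb⟩
  · left; exact ⟨good_mul ga gb, lawFor_mul la lb⟩
  · right
    have e : gi * (a * b) = a * (gi * b) := by ring
    rw [e]; exact ⟨good_mul ga gb, lawFor_mul la lb⟩
  · right
    have e : gi * (a * b) = (gi * a) * b := by ring
    rw [e]; exact ⟨good_mul ga gb, lawFor_mul la lb⟩
  · left
    have e : a * b = -((gi * a) * (gi * b)) := by linear_combination a * b * gi_pow_two
    rw [e]; exact ⟨good_neg (good_mul ga gb), lawFor_neg (lawFor_mul la lb)⟩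

theorem alt_of_unit_mul {u β : GaussianInt} (hu : u ^ 4 = 1) (hg : Good (u * β))
    (hl : LawFor (u * β)) : Alt β := by
  rcases four_cases hu with rfl | rfl | rfl | rfl
  · left; rw [one_mul] at hg hl; exact ⟨hg, hl⟩
  · left
    have e : β = -(-1 * β) := by ring
    rw [e]; exact ⟨good_neg hg, lawFor_neg hl⟩
  · right; exact ⟨hg, hl⟩
  · right
    have e : gi * β = -(-gi * β) := by ring
    rw [e]; exact ⟨good_neg hg, lawFor_neg hl⟩

theorem norm_one_of_isUnit {u : GaussianInt} (h : IsUnit u) : u ^ 4 = 1 := by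
  apply four_of_norm_one
  rw [← Zsqrtd.norm_eq_mul_conj]
  have h1 := Zsqrtd.norm_eq_one_iff.mpr h
  have h2 := GaussianInt.norm_nonneg u
  have h3 : u.norm = 1 := by omega
  rw [h3]; norm_cast

theorem alt_unit {u : GaussianInt} (h : IsUnit u) : Alt u := by
  have h4 := norm_one_of_isUnit h
  have g1 : Good 1 := by constructor <;> simp
  have l1 : LawFor 1 := by simpa using lawFor_int 1 (by norm_num)
  have h5 : (u ^ 3) ^ 4 = 1 := by rw [← pow_mul, mul_comm, pow_mul, h4, one_pow]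
  have h6 : u ^ 3 * u = 1 := by rw [← pow_succ, h4]
  exact alt_of_unit_mul h5 (by rw [h6]; exact g1) (by rw [h6]; exact l1)

theorem alt_int (n : ℤ) (hn : n % 2 = 1) : Alt (n : GaussianInt) :=
  Or.inl ⟨⟨by simpa using hn, by simp⟩, lawFor_int n hn⟩

theorem exists_rational_prime {z : GaussianInt} (hz : Irreducible z) :
    ∃ p : ℕ, p.Prime ∧ z ∣ (p : GaussianInt) ∧ p ∣ z.norm.natAbs := by
  have hp : Prime z := hz.prime
  have h0 : z.norm.natAbs ≠ 0 := by
    rw [Ne, Int.natAbs_eq_zero, GaussianInt.norm_eq_zero]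
    exact hz.ne_zero
  have h1 : z ∣ ((z.norm.natAbs : ℕ) : GaussianInt) := by
    have e : ((z.norm.natAbs : ℕ) : GaussianInt) = ((z.norm : ℤ) : GaussianInt) := by
      have := GaussianInt.abs_natCast_norm z
      rw [← Int.cast_natCast, this]
    rw [e, Zsqrtd.norm_eq_mul_conj]
    exact Dvd.intro _ rfl
  rw [← Nat.prod_primeFactorsList h0, Nat.cast_list_prod, hp.dvd_prod_iff] at h1
  obtain ⟨a, ha, hza⟩ := h1
  rw [List.mem_map] at ha
  obtain ⟨p, hp', rfl⟩ := ha
  exact ⟨p, Nat.prime_of_mem_primeFactorsList hp', hza, Nat.dvd_of_mem_primeFactorsList hp'⟩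

theorem alt_irreducible {z : GaussianInt} (hz : Irreducible z) (hodd : z.norm % 2 = 1) :
    Alt z := by
  obtain ⟨p, hp, ⟨w, hw⟩, hpn⟩ := exists_rational_prime hz
  have : Fact p.Prime := ⟨hp⟩
  have hzn := GaussianInt.norm_nonneg z
  have hwn := GaussianInt.norm_nonneg w
  have hp2 : p ≠ 2 := by
    rintro rfl
    have : (2 : ℤ) ∣ z.norm := Int.natCast_dvd.mpr hpn
    omega
  have hpodd : p % 2 = 1 := by
    rcases hp.eq_two_or_odd with h | h
    · exact absurd h hp2
    · exact h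
  have hN : z.norm.natAbs * w.norm.natAbs = p ^ 2 := by
    have h1 : (z * w).norm = (p : ℤ) * p := by
      rw [← hw]
      have := Zsqrtd.norm_natCast (d := -1) p
      simpa using this
    rw [Zsqrtd.norm_mul] at h1
    rw [← Int.natAbs_mul, h1, sq, Int.natAbs_mul]
    simp
  have hdvd : z.norm.natAbs ∣ p ^ 2 := ⟨_, hN.symm⟩
  obtain ⟨k, hk, hzk⟩ := (Nat.dvd_prime_pow hp).mp hdvd
  have hzz : z.norm = ((z.norm.natAbs : ℕ) : ℤ) := (Int.natAbs_of_nonneg hzn).symm
  interval_cases k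
  · -- norm one: unit
    exfalso
    apply hz.not_isUnit
    rw [← Zsqrtd.norm_eq_one_iff, hzk, pow_zero]
  · -- norm p
    have hzp : z.norm = p := by rw [hzz, hzk, pow_one]
    obtain ⟨u, hu, hprim⟩ := exists_primary z hodd
    have hnorm : (u * z) * star (u * z) = (p : GaussianInt) := by
      have h1 := star_mul_self_of_four hu
      have h2 : z * star z = (p : GaussianInt) := by
        rw [← Zsqrtd.norm_eq_mul_conj, hzp]; norm_cast
      rw [star_mul']
      linear_combination z * star z * h1 + h2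
    exact alt_of_unit_mul hu (good_of_primary hprim) (lawFor_prime p _ hnorm hp2 hprim)
  · -- norm p²
    have hw1 : w.norm.natAbs = 1 := by
      rw [hzk] at hN
      have : 0 < p ^ 2 := pow_pos hp.pos 2
      exact Nat.eq_of_mul_eq_mul_left this (by linarith)
    have hwu : IsUnit w := Zsqrtd.norm_eq_one_iff.mp hw1
    have hw4 := norm_one_of_isUnit hwu
    have e : z = ((p : ℤ) : GaussianInt) * w ^ 3 := by
      rw [Int.cast_natCast, hw, mul_assoc, ← pow_succ', hw4, mul_one]
    rw [e]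
    exact alt_mul (alt_int p (by omega)) (alt_unit (hwu.pow 3))

/-- The composite law for every Gaussian integer of odd norm. -/
theorem alt_all (z : GaussianInt) : z.norm % 2 = 1 → Alt z := by
  induction z using WfDvdMonoid.induction_on_irreducible with
  | zero => intro h; simp at h
  | unit u hu => intro _; exact alt_unit hu
  | mul a i ha hi ih =>
    intro h
    rw [Zsqrtd.norm_mul] at h
    have h2 : i.norm % 2 = 1 ∧ a.norm % 2 = 1 := by
      have h3 := Int.emod_two_eq_zero_or_one i.norm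
      have h4 := Int.emod_two_eq_zero_or_one a.norm
      rw [Int.mul_emod] at h
      rcases h3 with h3 | h3 <;> rcases h4 with h4 | h4 <;> rw [h3, h4] at h <;> simp at h
      exact ⟨h3, h4⟩
    exact alt_mul (alt_irreducible hi h2.1) (ih h2.2)

theorem good_norm {z : GaussianInt} (h : Good z) : z.norm % 2 = 1 := by
  obtain ⟨h1, h2⟩ := h
  have e : z.norm = z.re * z.re + z.im * z.im := by rw [Zsqrtd.norm_def]; ring
  have e1 : (z.re * z.re + z.im * z.im) % 2
      = ((z.re % 2) * (z.re % 2) + (z.im % 2) * (z.im % 2)) % 2 := by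
    simp [Int.add_emod, Int.mul_emod]
  rw [e, e1, h1, h2]
  norm_num

theorem lawFor_good {z : GaussianInt} (h : Good z) : LawFor z := by
  rcases alt_all z (good_norm h) with ⟨_, h1⟩ | ⟨h1, _⟩
  · exact h1
  · exfalso
    have h2 := h1.1
    have h3 := h.2
    simp [gi] at h2
    omega

end Pool.Agent.Lib.MP_f2f5f5_nt
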