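import Mathlib
import Pool.Agent.Lib.MP_f2f5f5_nt.LawFor

set_option autoImplicit false

namespace Pool.Agent.Lib.MP_f2f5f5_nt

open Finset

theorem st_mul (m n : ℤ) : st (m * n) = st m * st n := by
  unfold st
  push_cast
  rw [map_mul]
  push_cast
  ring

theorem st_neg (n : ℤ) : st (-n) = st n := by
  have h := st_mul (-1) n
  have h1 : st (-1) = 1 := by decide
  rw [neg_one_mul, h1, one_mul] at h
  exact h

/-- Two multiplicative functions that agree on the prime divisors of `n` agree at `n`. -/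
theorem mult_agree (f g : ℤ → GaussianInt) (f1 : f 1 = 1) (g1 : g 1 = 1)
    (fm : ∀ a b, f (a * b) = f a * f b) (gm : ∀ a b, g (a * b) = g a * g b)
    (fe : ∀ a, f (-a) = f a) (ge : ∀ a, g (-a) = g a) (n : ℤ) (hn : n ≠ 0)
    (h : ∀ q : ℕ, q.Prime → (q : ℤ) ∣ n → f q = g q) : f n = g n := by
  have key : ∀ k : ℕ, k ≠ 0 → (∀ q : ℕ, q.Prime → q ∣ k → f q = g q) → f k = g k := by
    intro k
    induction k using induction_on_primes with
    | zero => intro h; exact absurd rfl h
    | one => intro _ _; simp [f1, g1]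
    | prime_mul q a hq ih =>
      intro h0 h1
      push_cast
      rw [fm, gm, h1 q hq (Dvd.intro _ rfl), ih (right_ne_zero_of_mul h0)
        (fun r hr hra => h1 r hr (hra.mul_left q))]
  rcases Int.natAbs_eq n with h1 | h1
  · rw [h1]
    apply key _ (by omega)
    intro q hq hqn
    exact h q hq (Int.natCast_dvd.mpr hqn)
  · rw [h1, fe, ge]
    apply key _ (by omega)
    intro q hq hqn
    exact h q hq (Int.natCast_dvd.mpr hqn)

/-- The bookkeeping lemma for common factors. -/
theorem star_lemma (f1 f2 f3 : ℤ → GaussianInt) (a1 : f1 1 = 1) (a2 : f2 1 = 1) (a3 : f3 1 = 1)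
    (m1 : ∀ a b, f1 (a * b) = f1 a * f1 b) (m2 : ∀ a b, f2 (a * b) = f2 a * f2 b)
    (m3 : ∀ a b, f3 (a * b) = f3 a * f3 b) :
    ∀ y s t : ℕ, y ≠ 0 → s * t = y ^ 2 →
      (∀ q : ℕ, q.Prime → (q ∣ s → f2 q = f1 q ^ 2) ∧
        (q ∣ t → f2 q = 1 ∧ f3 q ^ 2 = 1 ∧ (q ∣ s → f1 q = f3 q))) →
      f1 s = f2 y * f3 t := by
  intro y
  induction y using Nat.strong_induction_on with
  | _ y ih =>
    intro s t hy hst H
    by_cases hy1 : y = 1
    · subst hy1
      have hs : s = 1 := Nat.eq_one_of_mul_eq_one_right (by simpa using hst)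
      have ht : t = 1 := Nat.eq_one_of_mul_eq_one_left (by simpa using hst)
      subst hs ht
      simp [a1, a2, a3]
    · obtain ⟨q, hq, hqy⟩ := Nat.exists_prime_and_dvd hy1
      obtain ⟨y', rfl⟩ := hqy
      have hy'0 : y' ≠ 0 := right_ne_zero_of_mul hy
      have hy'lt : y' < q * y' := by
        have := hq.two_le
        have : 0 < y' := Nat.pos_of_ne_zero hy'0
        nlinarith
      have hqpos := hq.pos
      obtain ⟨Hs, Ht⟩ := H q hq
      by_cases hqt : q ∣ t
      · by_cases hqs : q ∣ s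
        · obtain ⟨s', rfl⟩ := hqs
          obtain ⟨t', rfl⟩ := hqt
          have h1 : s' * t' = y' ^ 2 := by
            have : q ^ 2 * (s' * t') = q ^ 2 * y' ^ 2 := by nlinarith
            exact Nat.eq_of_mul_eq_mul_left (pow_pos hqpos 2) this
          obtain ⟨b1, b2, b3⟩ := Ht (Dvd.intro _ rfl)
          have b4 := b3 (Dvd.intro _ rfl)
          have h2 := ih y' hy'lt s' t' hy'0 h1 (fun r hr =>
            ⟨fun hrs => (H r hr).1 (hrs.mul_left q), fun hrt =>
              ⟨((H r hr).2 (hrt.mul_left q)).1, ((H r hr).2 (hrt.mul_left q)).2.1,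
                fun hrs => ((H r hr).2 (hrt.mul_left q)).2.2 (hrs.mul_left q)⟩⟩)
          push_cast
          rw [m1, m2, m3, h2, b1, b4]
          ring
        · have hq2 : q ^ 2 ∣ t := by
            have h1 : q ^ 2 ∣ s * t := by rw [hst, mul_pow]; exact Dvd.intro _ rfl
            exact (Nat.Coprime.pow_left 2 ((hq.coprime_iff_not_dvd).mpr hqs)).dvd_of_dvd_mul_left h1
          obtain ⟨t', rfl⟩ := hq2
          have h1 : s * t' = y' ^ 2 := by
            have : q ^ 2 * (s * t') = q ^ 2 * y' ^ 2 := by nlinarith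
            exact Nat.eq_of_mul_eq_mul_left (pow_pos hqpos 2) this
          obtain ⟨b1, b2, b3⟩ := Ht hqt
          have h2 := ih y' hy'lt s t' hy'0 h1 (fun r hr =>
            ⟨fun hrs => (H r hr).1 hrs, fun hrt =>
              ⟨((H r hr).2 (hrt.mul_left _)).1, ((H r hr).2 (hrt.mul_left _)).2.1,
                fun hrs => ((H r hr).2 (hrt.mul_left _)).2.2 hrs⟩⟩)
          push_cast
          rw [m2, m3, h2, b1, sq, m3, ← sq, b2]
          ring
      · have hq2 : q ^ 2 ∣ s := by
          have h1 : q ^ 2 ∣ s * t := by rw [hst, mul_pow]; exact Dvd.intro _ rfl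
          exact (Nat.Coprime.pow_left 2 ((hq.coprime_iff_not_dvd).mpr hqt)).dvd_of_dvd_mul_right h1
        have hqs : q ∣ s := (Dvd.intro_left (q) (by ring : q * q = q ^ 2)).trans hq2
        obtain ⟨s', rfl⟩ := hq2
        have h1 : s' * t = y' ^ 2 := by
          have : q ^ 2 * (s' * t) = q ^ 2 * y' ^ 2 := by nlinarith
          exact Nat.eq_of_mul_eq_mul_left (pow_pos hqpos 2) this
        have h2 := ih y' hy'lt s' t hy'0 h1 (fun r hr =>
            ⟨fun hrs => (H r hr).1 (hrs.mul_left _), fun hrt =>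
              ⟨((H r hr).2 hrt).1, ((H r hr).2 hrt).2.1,
                fun hrs => ((H r hr).2 hrt).2.2 (hrs.mul_left _)⟩⟩)
        push_cast
        rw [m1, m2, h2, Hs hqs, sq, m1]
        ring

end Pool.Agent.Lib.MP_f2f5f5_nt
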