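import Mathlib
import Pool.Agent.Lib.MP_f2f5f5_nt.Reduce

set_option autoImplicit false

namespace Pool.Agent.Lib.MP_f2f5f5_nt

open Finset

/-- The character `(2/·)` with values in the Gaussian integers. -/
def E8 (n : ℤ) : GaussianInt := ((ZMod.χ₈ (n : ZMod 8) : ℤ) : GaussianInt)

theorem E8_one_eq {n : ℤ} (h : n % 8 = 1 ∨ n % 8 = 7) : E8 n = 1 := by
  unfold E8
  rw [ZMod.χ₈_int_eq_if_mod_eight, if_neg (by omega), if_pos h]
  norm_num

theorem E8_neg_one_eq {n : ℤ} (h : n % 8 = 3 ∨ n % 8 = 5) : E8 n = -1 := by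
  unfold E8
  rw [ZMod.χ₈_int_eq_if_mod_eight, if_neg (by omega), if_neg (by omega)]
  norm_num

theorem E8_one : E8 1 = 1 := E8_one_eq (by norm_num)

theorem E8_mul (m n : ℤ) : E8 (m * n) = E8 m * E8 n := by
  unfold E8
  push_cast
  rw [map_mul]
  push_cast
  ring

theorem E8_neg (n : ℤ) : E8 (-n) = E8 n := by
  rw [← neg_one_mul, E8_mul]
  have : E8 (-1) = 1 := E8_one_eq (by norm_num)
  rw [this, one_mul]

theorem E8_sq {n : ℤ} (h : n % 2 = 1) : E8 n ^ 2 = 1 := by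
  have h8 : n % 8 = 1 ∨ n % 8 = 7 ∨ n % 8 = 3 ∨ n % 8 = 5 := by omega
  rcases h8 with h8 | h8 | h8 | h8
  · rw [E8_one_eq (Or.inl h8)]; norm_num
  · rw [E8_one_eq (Or.inr h8)]; norm_num
  · rw [E8_neg_one_eq (Or.inl h8)]; norm_num
  · rw [E8_neg_one_eq (Or.inr h8)]; norm_num

theorem E8_prime (q : ℕ) (h : q % 2 = 1) : E8 q = (-1) ^ (ex q) := by
  have h8 : q % 8 = 1 ∨ q % 8 = 7 ∨ q % 8 = 3 ∨ q % 8 = 5 := by omega
  rcases h8 with h8 | h8 | h8 | h8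
  · rw [E8_one_eq (by omega), Even.neg_one_pow]
    rw [ex, if_pos (by omega), Nat.even_iff]; omega
  · rw [E8_one_eq (by omega), Even.neg_one_pow]
    rw [ex, if_neg (by omega), Nat.even_iff]; omega
  · rw [E8_neg_one_eq (by omega), Odd.neg_one_pow]
    rw [ex, if_neg (by omega), Nat.odd_iff]; omega
  · rw [E8_neg_one_eq (by omega), Odd.neg_one_pow]
    rw [ex, if_pos (by omega), Nat.odd_iff]; omega

theorem sym_gi' (q : ℕ) (h : q % 2 = 1) : Sym gi q (E8 q) := by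
  rw [E8_prime q h]; exact sym_gi q

/-- The arithmetic data of the problem after the substitutions. -/
structure Data (p : ℕ) (c e g h w B t a b m s : ℤ) : Prop where
  hp : p.Prime
  p8 : p % 8 = 1
  pc : (p : ℤ) = c ^ 2 + 16 * e ^ 2
  c4 : c % 4 = 1
  B2 : B % 2 = 1
  gc : g * (c - g) = (1 + B ^ 2) * w ^ 2 - 4 * e ^ 2
  hh : h = 2 * e - B * w
  g2 : g % 2 = 1
  t0 : 0 < t
  ga : g = t * a
  hb : h = t * b
  cop : IsCoprime a b
  hm : m = a * c + 4 * b * e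
  hs : m = t * (a ^ 2 + b ^ 2) + s
  ws : w ^ 2 = t * s
  pw : ¬ (p : ℤ) ∣ w
  pm : ¬ (p : ℤ) ∣ m

section

variable {p : ℕ} {c e g h w B t a b m s : ℤ} (D : Data p c e g h w B t a b m s)

include D

theorem Data.not_dvd_c : ¬ (p : ℤ) ∣ c := by
  intro hc
  have hpp : Prime (p : ℤ) := Nat.prime_iff_prime_int.mp D.hp
  have h1 : (p : ℤ) ∣ 16 * e ^ 2 := by
    have : 16 * e ^ 2 = p - c ^ 2 := by rw [D.pc]; ring
    rw [this]
    exact dvd_sub (dvd_refl _) (dvd_pow hc two_ne_zero)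
  have h2 : (p : ℤ) ∣ e := by
    rcases hpp.dvd_or_dvd h1 with h2 | h2
    · exfalso
      have h3 : (p : ℤ) ∣ 2 ^ 4 := by norm_num; exact h2
      have h4 : (p : ℤ) ∣ 2 := hpp.dvd_of_dvd_pow h3
      have h5 : p ∣ 2 := by exact_mod_cast h4
      have h6 := (Nat.prime_dvd_prime_iff_eq D.hp Nat.prime_two).mp h5
      have := D.p8
      omega
    · exact hpp.dvd_of_dvd_pow h2
  obtain ⟨k, hk⟩ := hc
  obtain ⟨l, hl⟩ := h2
  have h3 := D.pc
  rw [hk, hl] at h3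
  have h4 : (p : ℤ) * ((p : ℤ) * (k ^ 2 + 16 * l ^ 2)) = p * 1 := by linarith
  have h5 := mul_left_cancel₀ hpp.ne_zero h4
  have h6 : (p : ℤ) ∣ 1 := ⟨_, h5.symm⟩
  exact hpp.not_isUnit (isUnit_of_dvd_one h6)

theorem Data.not_dvd_e : ¬ (p : ℤ) ∣ e := by
  intro he
  apply D.not_dvd_c
  have hpp : Prime (p : ℤ) := Nat.prime_iff_prime_int.mp D.hp
  apply hpp.dvd_of_dvd_pow (n := 2)
  have : c ^ 2 = p - 16 * e ^ 2 := by rw [D.pc]; ring
  rw [this]
  exact dvd_sub (dvd_refl _) ((dvd_pow he two_ne_zero).mul_left _)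

theorem Data.norm_pi : (⟨c, 4 * e⟩ : GaussianInt).norm = p := by
  rw [Zsqrtd.norm_def, D.pc]; ring

theorem Data.not_dvd_norm {q : ℕ} (hq : q.Prime) (hqp : q ≠ p) :
    ¬ (q : ℤ) ∣ (⟨c, 4 * e⟩ : GaussianInt).norm := by
  rw [D.norm_pi]
  intro h
  have h1 : q ∣ p := by exact_mod_cast h
  exact hqp ((Nat.prime_dvd_prime_iff_eq hq D.hp).mp h1)

variable {A : ℤ → GaussianInt}
  (hA : ∀ q : ℕ, q.Prime → q ≠ 2 → q ≠ p → Sym ⟨c, 4 * e⟩ q (A q))

include hA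

/-- If `q ∣ e` then `A q = 1`. -/
theorem Data.A_of_dvd_e {q : ℕ} (hq : q.Prime) (hq2 : q ≠ 2) (he : (q : ℤ) ∣ e) : A q = 1 := by
  have : Fact q.Prime := ⟨hq⟩
  have hqp : q ≠ p := by rintro rfl; exact D.not_dvd_e he
  refine sym_unique q hq2 (D.not_dvd_norm hq hqp) (hA q hq hq2 hqp) ?_
  refine sym_congr q ?_ (sym_int q c)
  rw [natCast_dvd_iff]
  constructor
  · simp
  · simpa using he.mul_left 4

/-- If `q ∣ c` then `A q = E8 q`. -/
theorem Data.A_of_dvd_c {q : ℕ} (hq : q.Prime) (hq2 : q ≠ 2) (hc : (q : ℤ) ∣ c) :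
    A q = E8 q := by
  have : Fact q.Prime := ⟨hq⟩
  have hqp : q ≠ p := by rintro rfl; exact D.not_dvd_c hc
  have hqo : q % 2 = 1 := by
    rcases hq.eq_two_or_odd with h | h
    · exact absurd h hq2
    · exact h
  refine sym_unique q hq2 (D.not_dvd_norm hq hqp) (hA q hq hq2 hqp) ?_
  have h1 := sym_mul q (sym_int q (4 * e)) (sym_gi' q hqo)
  rw [one_mul] at h1
  refine sym_congr q ?_ h1
  rw [natCast_dvd_iff]
  constructor
  · simp [gi]; exact hc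
  · simp [gi]

/-- If `q ∣ c + 4e` then `A q ^ 2 = E8 q`. -/
theorem Data.A_of_dvd_cd {q : ℕ} (hq : q.Prime) (hq2 : q ≠ 2) (hc : (q : ℤ) ∣ c + 4 * e) :
    A q ^ 2 = E8 q := by
  have : Fact q.Prime := ⟨hq⟩
  have hqp : q ≠ p := by
    rintro rfl
    have hpp : Prime (q : ℤ) := Nat.prime_iff_prime_int.mp hq
    have h1 : (q : ℤ) ∣ 2 * c ^ 2 := by
      obtain ⟨k, hk⟩ := hc
      have h4 := D.pc
      exact ⟨1 + k * (c - 4 * e), by linear_combination -h4 + hk * (c - 4 * e)⟩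
    rcases hpp.dvd_or_dvd h1 with h2 | h2
    · have h5 : q ∣ 2 := by exact_mod_cast h2
      exact hq2 ((Nat.prime_dvd_prime_iff_eq hq Nat.prime_two).mp h5)
    · exact D.not_dvd_c (hpp.dvd_of_dvd_pow h2)
  have hqo : q % 2 = 1 := by
    rcases hq.eq_two_or_odd with h | h
    · exact absurd h hq2
    · exact h
  have h1 := sym_mul q (hA q hq hq2 hqp) (hA q hq hq2 hqp)
  rw [← sq] at h1
  have h2 := sym_mul q (sym_int q (-2 * c ^ 2)) (sym_gi' q hqo)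
  rw [one_mul] at h2
  have hn : ¬ (q : ℤ) ∣ ((⟨c, 4 * e⟩ : GaussianInt) * ⟨c, 4 * e⟩).norm := by
    rw [Zsqrtd.norm_mul]
    intro h3
    have hpp : Prime (q : ℤ) := Nat.prime_iff_prime_int.mp hq
    rcases hpp.dvd_or_dvd h3 with h3 | h3
    · exact D.not_dvd_norm hq hqp h3
    · exact D.not_dvd_norm hq hqp h3
  rw [← sq]  at h1
  rw [← sq] at hn
  refine sym_unique q hq2 hn h1 ?_
  refine sym_congr q ?_ h2
  obtain ⟨k, hk⟩ := hc
  have h4 : 4 * e = q * k - c := by linarith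
  rw [h4, natCast_dvd_iff]
  constructor
  · simp [gi, sq]
    exact ⟨(k * (q * k - c) - k * c), by ring⟩
  · simp [gi, sq]
    exact ⟨-2 * c * k, by ring⟩

end

end Pool.Agent.Lib.MP_f2f5f5_nt
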