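import Mathlib
import Pool.Agent.Lib.MP_f2f5f5_nt.Core

set_option autoImplicit false

namespace Pool.Agent.Lib.MP_f2f5f5_nt

open Finset

section

variable {p : ℕ} {c e g h w B t a b m s : ℤ} (D : Data p c e g h w B t a b m s)

include D

theorem Data.t2 : t % 2 = 1 := by
  have h1 := D.ga
  have h2 := D.g2
  rw [h1, Int.mul_emod] at h2
  rcases Int.emod_two_eq_zero_or_one t with h3 | h3
  · rw [h3] at h2; simp at h2
  · exact h3

theorem Data.a2 : a % 2 = 1 := by
  have h1 := D.ga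
  have h2 := D.g2
  rw [h1, Int.mul_emod] at h2
  rcases Int.emod_two_eq_zero_or_one a with h3 | h3
  · rw [h3] at h2; simp at h2
  · exact h3

theorem Data.m2 : m % 2 = 1 := by
  have h1 := D.hm
  have h2 := D.a2
  have h3 := D.c4
  have h4 : (a * c) % 2 = 1 := by
    rw [Int.mul_emod, h2]
    have : c % 2 = 1 := by omega
    rw [this]; rfl
  have h5 : 4 * b * e = 2 * (2 * b * e) := by ring
  rw [h1, h5]
  omega

theorem Data.w_of_s {q : ℕ} (hq : q.Prime) (h1 : (q : ℤ) ∣ s) : (q : ℤ) ∣ w := by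
  have hpp : Prime (q : ℤ) := Nat.prime_iff_prime_int.mp hq
  apply hpp.dvd_of_dvd_pow (n := 2)
  rw [D.ws]
  exact h1.mul_left _

theorem Data.w_of_t {q : ℕ} (hq : q.Prime) (h1 : (q : ℤ) ∣ t) : (q : ℤ) ∣ w := by
  have hpp : Prime (q : ℤ) := Nat.prime_iff_prime_int.mp hq
  apply hpp.dvd_of_dvd_pow (n := 2)
  rw [D.ws]
  exact h1.mul_right _

theorem Data.e_of_t {q : ℕ} (hq : q.Prime) (hq2 : q ≠ 2) (h1 : (q : ℤ) ∣ t) : (q : ℤ) ∣ e := by
  have hpp : Prime (q : ℤ) := Nat.prime_iff_prime_int.mp hq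
  have h2 := D.w_of_t hq h1
  have h3 : (q : ℤ) ∣ 2 * e := by
    have : 2 * e = t * b + B * w := by rw [← D.hb, D.hh]; ring
    rw [this]
    exact dvd_add (h1.mul_right _) (h2.mul_left _)
  rcases hpp.dvd_or_dvd h3 with h4 | h4
  · have h5 : q ∣ 2 := by exact_mod_cast h4
    exact absurd ((Nat.prime_dvd_prime_iff_eq hq Nat.prime_two).mp h5) hq2
  · exact h4

theorem Data.t_ne_two {q : ℕ} (h1 : (q : ℤ) ∣ t) : q ≠ 2 := by
  rintro rfl
  have := D.t2
  have h2 : (2 : ℤ) ∣ t := by exact_mod_cast h1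
  omega

theorem Data.m_ne_two {q : ℕ} (h1 : (q : ℤ) ∣ m) : q ≠ 2 := by
  rintro rfl
  have := D.m2
  have h2 : (2 : ℤ) ∣ m := by exact_mod_cast h1
  omega

/-- A prime dividing `m` does not divide the norm of `β`. -/
theorem Data.norm_of_m {q : ℕ} (hq : q.Prime) (h1 : (q : ℤ) ∣ m) :
    ¬ (q : ℤ) ∣ a ^ 2 + b ^ 2 := by
  intro h2
  have hpp : Prime (q : ℤ) := Nat.prime_iff_prime_int.mp hq
  have hqp : q ≠ p := by rintro rfl; exact D.pm h1
  have h3 : (q : ℤ) ∣ b * c - 4 * a * e := by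
    apply hpp.dvd_of_dvd_pow (n := 2)
    have : (b * c - 4 * a * e) ^ 2 = (a ^ 2 + b ^ 2) * p - m * m := by
      rw [D.hm, D.pc]; ring
    rw [this]
    exact dvd_sub (h2.mul_right _) (h1.mul_right _)
  have hqp' : ¬ (q : ℤ) ∣ (p : ℤ) := by
    intro h
    have h1 : q ∣ p := by exact_mod_cast h
    exact hqp ((Nat.prime_dvd_prime_iff_eq hq D.hp).mp h1)
  have h4 : (q : ℤ) ∣ a * p := by
    have : a * p = c * m - 4 * e * (b * c - 4 * a * e) := by rw [D.hm, D.pc]; ring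
    rw [this]
    exact dvd_sub (h1.mul_left _) (h3.mul_left _)
  have h5 : (q : ℤ) ∣ b * p := by
    have : b * p = 4 * e * m + c * (b * c - 4 * a * e) := by rw [D.hm, D.pc]; ring
    rw [this]
    exact dvd_add (h1.mul_left _) (h3.mul_left _)
  have ha : (q : ℤ) ∣ a := (hpp.dvd_or_dvd h4).resolve_right hqp'
  have hb : (q : ℤ) ∣ b := (hpp.dvd_or_dvd h5).resolve_right hqp'
  have := D.cop.isUnit_of_dvd' ha hb
  exact hpp.not_isUnit this

theorem Data.norm_of_s {q : ℕ} (hq : q.Prime) (h1 : (q : ℤ) ∣ s) :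
    ¬ (q : ℤ) ∣ a ^ 2 + b ^ 2 := by
  intro h2
  have h3 : (q : ℤ) ∣ m := by
    rw [D.hs]; exact dvd_add (h2.mul_left _) h1
  exact D.norm_of_m hq h3 h2

variable {A : ℤ → GaussianInt}
  (hA : ∀ q : ℕ, q.Prime → q ≠ 2 → q ≠ p → Sym ⟨c, 4 * e⟩ q (A q))
  {F : ℤ → GaussianInt}
  (hF : ∀ q : ℕ, q.Prime → q ≠ 2 → ¬ (q : ℤ) ∣ a ^ 2 + b ^ 2 → Sym ⟨a, b⟩ q (F q))

omit D in
theorem norm_beta : (⟨a, b⟩ : GaussianInt).norm = a ^ 2 + b ^ 2 := by
  rw [Zsqrtd.norm_def]; ring

omit D in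
theorem odd_of_ne_two {q : ℕ} (hq : q.Prime) (hq2 : q ≠ 2) : q % 2 = 1 := by
  rcases hq.eq_two_or_odd with h | h
  · exact absurd h hq2
  · exact h

omit D in
include hF in
/-- If `q ∣ a` and `q` does not divide the norm then `F q = E8 q`. -/
theorem F_of_dvd_a {q : ℕ} (hq : q.Prime) (hq2 : q ≠ 2) (hn : ¬ (q : ℤ) ∣ a ^ 2 + b ^ 2)
    (ha : (q : ℤ) ∣ a) : F q = E8 q := by
  have : Fact q.Prime := ⟨hq⟩
  have hn' : ¬ (q : ℤ) ∣ (⟨a, b⟩ : GaussianInt).norm := by rw [norm_beta]; exact hn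
  refine sym_unique q hq2 hn' (hF q hq hq2 hn) ?_
  have h1 := sym_mul q (sym_int q b) (sym_gi' q (odd_of_ne_two hq hq2))
  rw [one_mul] at h1
  refine sym_congr q ?_ h1
  rw [natCast_dvd_iff]
  constructor
  · simp [gi]; exact ha
  · simp [gi]

include hA hF in
/-- The value of `A` at the primes dividing `m`. -/
theorem Data.A_of_dvd_m {q : ℕ} (hq : q.Prime) (h1 : (q : ℤ) ∣ m) : A q = E8 q * F q := by
  have : Fact q.Prime := ⟨hq⟩
  have hpp : Prime (q : ℤ) := Nat.prime_iff_prime_int.mp hq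
  have hq2 := D.m_ne_two h1
  have hqp : q ≠ p := by rintro rfl; exact D.pm h1
  have hn := D.norm_of_m hq h1
  have hqo := odd_of_ne_two hq hq2
  by_cases ha : (q : ℤ) ∣ a
  · have h2 : (q : ℤ) ∣ 4 * b * e := by
      have : 4 * b * e = m - a * c := by rw [D.hm]; ring
      rw [this]
      exact dvd_sub h1 (ha.mul_right _)
    have hb : ¬ (q : ℤ) ∣ b := fun hb => hpp.not_isUnit (D.cop.isUnit_of_dvd' ha hb)
    have h4 : ¬ (q : ℤ) ∣ 4 := by
      intro h4
      have h5 : (q : ℤ) ∣ 2 ^ 2 := by norm_num; exact h4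
      have h6 : (q : ℤ) ∣ 2 := hpp.dvd_of_dvd_pow h5
      have h7 : q ∣ 2 := by exact_mod_cast h6
      exact hq2 ((Nat.prime_dvd_prime_iff_eq hq Nat.prime_two).mp h7)
    have he : (q : ℤ) ∣ e := by
      rcases hpp.dvd_or_dvd h2 with h3 | h3
      · rcases hpp.dvd_or_dvd h3 with h5 | h5
        · exact absurd h5 h4
        · exact absurd h5 hb
      · exact h3
    rw [D.A_of_dvd_e hA hq hq2 he, F_of_dvd_a hF hq hq2 hn ha, ← sq, E8_sq (by omega)]
  · have h2 := sym_mul q (sym_int q a) (hA q hq hq2 hqp)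
    rw [one_mul] at h2
    have h3 := sym_mul q (sym_int q (4 * e)) (sym_mul q (sym_gi' q hqo) (hF q hq hq2 hn))
    rw [one_mul] at h3
    have hn2 : ¬ (q : ℤ) ∣ ((a : GaussianInt) * ⟨c, 4 * e⟩).norm := by
      rw [Zsqrtd.norm_mul, Zsqrtd.norm_intCast]
      intro h4
      rcases hpp.dvd_or_dvd h4 with h5 | h5
      · rcases hpp.dvd_or_dvd h5 with h6 | h6
        · exact ha h6
        · exact ha h6
      · exact D.not_dvd_norm hq hqp h5
    refine sym_unique q hq2 hn2 h2 ?_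
    refine sym_congr q ?_ h3
    have hm := D.hm
    obtain ⟨k, hk⟩ := h1
    rw [natCast_dvd_iff]
    constructor
    · simp [gi]
      exact ⟨-k, by linear_combination hm - hk⟩
    · simp [gi]
      exact ⟨0, by ring⟩

include hA hF in
/-- The value of `A` at the primes dividing `s`. -/
theorem Data.A_of_dvd_s {q : ℕ} (hq : q.Prime) (hq2 : q ≠ 2) (h1 : (q : ℤ) ∣ s) :
    A q = F q ^ 2 := by
  have : Fact q.Prime := ⟨hq⟩
  have hpp : Prime (q : ℤ) := Nat.prime_iff_prime_int.mp hq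
  have hw := D.w_of_s hq h1
  have hqp : q ≠ p := by rintro rfl; exact D.pw hw
  have hn := D.norm_of_s hq h1
  have hqo := odd_of_ne_two hq hq2
  -- the fundamental congruence
  have key1 : a * c = t * (a ^ 2 - b ^ 2) + (s - 2 * B * w * b) := by
    have ht0 : t ≠ 0 := D.t0.ne'
    apply mul_left_cancel₀ ht0
    have e1 := D.gc
    have e2 := D.ga
    have e3 := D.hb
    have e4 := D.hh
    have e5 := D.ws
    have e6 : t * b = 2 * e - B * w := by rw [← e3, e4]
    rw [e2] at e1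
    linear_combination e1 + e5 + (t * b + 2 * e + B * w) * e6
  have key2 : a * (4 * e) = 2 * t * a * b + 2 * B * w * a := by
    have e3 := D.hb
    have e4 := D.hh
    have e6 : t * b = 2 * e - B * w := by rw [← e3, e4]
    linear_combination -2 * a * e6
  by_cases ha : (q : ℤ) ∣ a
  · have hb : ¬ (q : ℤ) ∣ b := fun hb => hpp.not_isUnit (D.cop.isUnit_of_dvd' ha hb)
    have ht : (q : ℤ) ∣ t := by
      have h2 : (q : ℤ) ∣ t * b ^ 2 := by
        have : t * b ^ 2 = t * a * a - a * c + (s - 2 * B * w * b) := by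
          linear_combination key1
        rw [this]
        refine dvd_add (dvd_sub (ha.mul_left _) (ha.mul_right _)) (dvd_sub h1 ?_)
        have : 2 * B * w * b = w * (2 * B * b) := by ring
        rw [this]; exact hw.mul_right _
      rcases hpp.dvd_or_dvd h2 with h3 | h3
      · exact h3
      · exact absurd (hpp.dvd_of_dvd_pow h3) hb
    rw [D.A_of_dvd_e hA hq hq2 (D.e_of_t hq hq2 ht), F_of_dvd_a hF hq hq2 hn ha,
      E8_sq (by omega)]
  · have h2 := sym_mul q (sym_int q a) (hA q hq hq2 hqp)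
    rw [one_mul] at h2
    have h3 := sym_mul q (sym_int q t) (sym_mul q (hF q hq hq2 hn) (hF q hq hq2 hn))
    rw [one_mul, ← sq, ← sq] at h3
    have hn2 : ¬ (q : ℤ) ∣ ((a : GaussianInt) * ⟨c, 4 * e⟩).norm := by
      rw [Zsqrtd.norm_mul, Zsqrtd.norm_intCast]
      intro h4
      rcases hpp.dvd_or_dvd h4 with h5 | h5
      · rcases hpp.dvd_or_dvd h5 with h6 | h6
        · exact ha h6
        · exact ha h6
      · exact D.not_dvd_norm hq hqp h5
    refine sym_unique q hq2 hn2 h2 ?_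
    refine sym_congr q ?_ h3
    obtain ⟨k, hk⟩ := h1
    obtain ⟨j, hj⟩ := hw
    rw [hk, hj] at key1
    rw [hj] at key2
    rw [natCast_dvd_iff]
    constructor
    · simp [sq]
      exact ⟨-k + 2 * B * j * b, by linear_combination -key1⟩
    · simp [sq]
      exact ⟨-2 * B * j * a, by linear_combination -key2⟩

include hF in
/-- The value of `F` at the common prime divisors of `s` and `t`. -/
theorem Data.F_of_dvd_st {q : ℕ} (hq : q.Prime) (h1 : (q : ℤ) ∣ s) (h2 : (q : ℤ) ∣ t) :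
    F q = E8 q := by
  have hpp : Prime (q : ℤ) := Nat.prime_iff_prime_int.mp hq
  have hq2 := D.t_ne_two h2
  have hn := D.norm_of_s hq h1
  have hm : (q : ℤ) ∣ m := by
    rw [D.hs]; exact dvd_add (h2.mul_right _) h1
  have he := D.e_of_t hq hq2 h2
  have hac : (q : ℤ) ∣ a * c := by
    have : a * c = m - 4 * b * e := by rw [D.hm]; ring
    rw [this]
    exact dvd_sub hm (he.mul_left _)
  have hqp : q ≠ p := by rintro rfl; exact D.not_dvd_e he
  have hc : ¬ (q : ℤ) ∣ c := by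
    intro hc
    have h3 : (q : ℤ) ∣ (p : ℤ) := by
      rw [D.pc]
      exact dvd_add (dvd_pow hc two_ne_zero) ((dvd_pow he two_ne_zero).mul_left _)
    have h4 : q ∣ p := by exact_mod_cast h3
    exact hqp ((Nat.prime_dvd_prime_iff_eq hq D.hp).mp h4)
  have ha : (q : ℤ) ∣ a := (hpp.dvd_or_dvd hac).resolve_right hc
  exact F_of_dvd_a hF hq hq2 hn ha

end

end Pool.Agent.Lib.MP_f2f5f5_nt
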