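import Mathlib
import Pool.Agent.Lib.MP_f2f5f5_nt.Core2

set_option autoImplicit false

namespace Pool.Agent.Lib.MP_f2f5f5_nt

open Finset

/-- Completely multiplicative even functions. -/
def ME (f : ℤ → GaussianInt) : Prop :=
  f 1 = 1 ∧ (∀ a b, f (a * b) = f a * f b) ∧ ∀ a, f (-a) = f a

theorem ME_E8 : ME E8 := ⟨E8_one, E8_mul, E8_neg⟩

theorem ME_one : ME (fun _ => 1) := ⟨rfl, fun _ _ => (mul_one 1).symm, fun _ => rfl⟩

theorem ME.mul {f g : ℤ → GaussianInt} (hf : ME f) (hg : ME g) : ME (fun n => f n * g n) := by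
  refine ⟨?_, ?_, ?_⟩
  · simp [hf.1, hg.1]
  · intro a b; simp only [hf.2.1, hg.2.1]; ring
  · intro a; simp only [hf.2.2, hg.2.2]

theorem ME.agree {f g : ℤ → GaussianInt} (hf : ME f) (hg : ME g) (n : ℤ) (hn : n ≠ 0)
    (h : ∀ q : ℕ, q.Prime → (q : ℤ) ∣ n → f q = g q) : f n = g n :=
  mult_agree f g hf.1 hg.1 hf.2.1 hg.2.1 hf.2.2 hg.2.2 n hn h

section

variable {p : ℕ} {c e g h w B t a b m s : ℤ} (D : Data p c e g h w B t a b m s)
  {A : ℤ → GaussianInt} (mA : ME A)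
  (hA : ∀ q : ℕ, q.Prime → q ≠ 2 → q ≠ p → Sym ⟨c, 4 * e⟩ q (A q))

include D mA hA

theorem Data.A_t : A t = 1 := by
  have h0 : t ≠ 0 := D.t0.ne'
  exact mA.agree ME_one t h0 (fun q hq hqt =>
    D.A_of_dvd_e hA hq (D.t_ne_two hqt) (D.e_of_t hq (D.t_ne_two hqt) hqt))

theorem Data.A_c : A c = E8 c := by
  have h4 := D.c4
  have h0 : c ≠ 0 := by rintro rfl; norm_num at h4
  refine mA.agree ME_E8 c h0 (fun q hq hqc => D.A_of_dvd_c hA hq ?_ hqc)
  rintro rfl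
  have : (2 : ℤ) ∣ c := by exact_mod_cast hqc
  omega

theorem Data.A_cd : A (c + 4 * e) ^ 2 = E8 (c + 4 * e) := by
  have h4 := D.c4
  have h0 : c + 4 * e ≠ 0 := by omega
  have h1 := (mA.mul mA).agree ME_E8 (c + 4 * e) h0 (fun q hq hqc => by
    rw [← sq]
    refine D.A_of_dvd_cd hA hq ?_ hqc
    rintro rfl
    have : (2 : ℤ) ∣ c + 4 * e := by exact_mod_cast hqc
    omega)
  rw [sq]; exact h1

variable {F : ℤ → GaussianInt} (mF : ME F)
  (hF : ∀ q : ℕ, q.Prime → q ≠ 2 → ¬ (q : ℤ) ∣ a ^ 2 + b ^ 2 → Sym ⟨a, b⟩ q (F q))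

include mF hF

theorem Data.A_m : A m = E8 m * F m := by
  have h4 := D.m2
  have h0 : m ≠ 0 := by omega
  exact mA.agree (ME_E8.mul mF) m h0 (fun q hq hqc => D.A_of_dvd_m hA hF hq hqc)

theorem Data.F_s (y s' t' : ℕ) (ht : t = t') (hy : y ≠ 0) (hs : (s' : ℤ) ∣ s) (hs2 : s' % 2 = 1)
    (hst : s' * t' = y ^ 2) : F s' = A y * E8 t := by
  rw [ht]
  apply star_lemma F A E8 mF.1 mA.1 E8_one mF.2.1 mA.2.1 E8_mul y s' t' hy hst
  intro q hq
  constructor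
  · intro hqs
    refine D.A_of_dvd_s hA hF hq ?_ ((Int.natCast_dvd_natCast.mpr hqs).trans hs)
    rintro rfl
    omega
  · intro hqt
    have h1 : (q : ℤ) ∣ t := by rw [ht]; exact Int.natCast_dvd_natCast.mpr hqt
    have hq2 := D.t_ne_two h1
    refine ⟨D.A_of_dvd_e hA hq hq2 (D.e_of_t hq hq2 h1), ?_, fun hqs => ?_⟩
    · apply E8_sq
      have := odd_of_ne_two hq hq2
      omega
    · exact D.F_of_dvd_st hF hq ((Int.natCast_dvd_natCast.mpr hqs).trans hs) h1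

end

section

variable {p : ℕ} {c e g h w B t a b m s : ℤ} (D : Data p c e g h w B t a b m s)
  [hpf : Fact p.Prime] (φ : GaussianInt →+* ZMod p) (hφ : φ ⟨c, 4 * e⟩ = 0)
  (hker : ∀ z, φ z = 0 → (⟨c, 4 * e⟩ : GaussianInt) ∣ z)
  (χ : MulChar (ZMod p) GaussianInt)
  (hχ : ∀ t : ZMod p, t ≠ 0 → χ t ^ 4 = 1 ∧ φ (χ t) = t ^ ((p - 1) / 4))

include D

omit hpf in
theorem Data.pi_norm : (⟨c, 4 * e⟩ : GaussianInt) * star ⟨c, 4 * e⟩ = (p : GaussianInt) := by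
  rw [← Zsqrtd.norm_eq_mul_conj, D.norm_pi]
  norm_cast

include hχ in
theorem Data.chi_neg_one : χ (-1) = 1 := by
  have h1 := (hχ (-1) (neg_ne_zero.mpr one_ne_zero))
  have h8 := D.p8
  have h4 : p % 4 = 1 := by omega
  apply eq_one_of_map_eq_one φ (two_ne_zero' p h4) h1.1
  rw [h1.2, Even.neg_one_pow]
  rw [Nat.even_iff]
  omega

include hχ in
theorem Data.ME_chi : ME (fun n : ℤ => χ (n : ZMod p)) := by
  refine ⟨by simp, fun a b => by simp, fun a => ?_⟩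
  have h1 := D.chi_neg_one φ χ hχ
  calc χ ((-a : ℤ) : ZMod p) = χ (-1 * (a : ZMod p)) := by congr 1; push_cast; ring
    _ = χ (a : ZMod p) := by rw [map_mul, h1, one_mul]

include hker hχ in
theorem Data.sym_chi (q : ℕ) (hq : q.Prime) (hq2 : q ≠ 2) (hqp : q ≠ p) :
    Sym ⟨c, 4 * e⟩ q (χ (((q : ℤ)) : ZMod p)) := by
  have : Fact q.Prime := ⟨hq⟩
  have h8 := D.p8
  have h4 : p % 4 = 1 := by omega
  have hc4 := D.c4
  have hprim : Primary (⟨c, 4 * e⟩ : GaussianInt) := primary_of c (4 * e) (by omega) (by omega)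
  have hlaw := law_sym p h4 φ χ hχ ⟨c, 4 * e⟩ D.pi_norm hker hprim q hq2 hqp
  have hqodd : q % 4 = 1 ∨ q % 4 = 3 := by
    have := hq.eq_two_or_odd
    omega
  have hme := (D.ME_chi φ χ hχ).2.2 q
  simp only at hme
  push_cast at hme ⊢
  rcases hqodd with h | h
  · exact hlaw.1 h
  · rw [← hme]; exact hlaw.2 h

omit hpf in
theorem Data.gi_pow : gi ^ ((p - 1) / 4) = E8 c := by
  have h8 := D.p8
  have hc4 := D.c4
  have hpc := D.pc
  have h1 : (p - 1) / 4 = 2 * ((p - 1) / 8) := by omega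
  rw [h1, pow_mul, gi_pow_two]
  have hc : c % 16 = 1 ∨ c % 16 = 5 ∨ c % 16 = 9 ∨ c % 16 = 13 := by omega
  have h2 : (c ^ 2) % 16 = ((c % 16) ^ 2) % 16 := by simp [sq, Int.mul_emod]
  rcases hc with hc | hc | hc | hc <;> rw [hc] at h2 <;> norm_num at h2
  · rw [E8_one_eq (by omega), Even.neg_one_pow]
    rw [Nat.even_iff]; omega
  · rw [E8_neg_one_eq (by omega), Odd.neg_one_pow]
    rw [Nat.odd_iff]; omega
  · rw [E8_one_eq (by omega), Even.neg_one_pow]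
    rw [Nat.even_iff]; omega
  · rw [E8_neg_one_eq (by omega), Odd.neg_one_pow]
    rw [Nat.odd_iff]; omega

omit D in
include hφ in
theorem phi_eq : (c : ZMod p) + 4 * (e : ZMod p) * φ gi = 0 := by
  have h := hφ
  rw [eq_re_add_im ⟨c, 4 * e⟩] at h
  simp only [map_add, map_mul, map_intCast] at h
  push_cast at h
  exact h

theorem Data.cast_c_ne : (c : ZMod p) ≠ 0 := by
  intro h
  rw [ZMod.intCast_zmod_eq_zero_iff_dvd] at h
  exact D.not_dvd_c h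

theorem Data.cast_w_ne : (w : ZMod p) ≠ 0 := by
  intro h
  rw [ZMod.intCast_zmod_eq_zero_iff_dvd] at h
  exact D.pw h

theorem Data.cast_m_ne : (m : ZMod p) ≠ 0 := by
  intro h
  rw [ZMod.intCast_zmod_eq_zero_iff_dvd] at h
  exact D.pm h

theorem Data.cast_t_ne : (t : ZMod p) ≠ 0 := by
  intro h
  rw [ZMod.intCast_zmod_eq_zero_iff_dvd] at h
  exact D.pw (D.w_of_t D.hp h)

include hφ hker hχ in
/-- The value of the character at `2`. -/
theorem Data.chi_two : χ 2 = E8 (c * (c + 4 * e)) := by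
  have h8 := D.p8
  have h4 : p % 4 = 1 := by omega
  have h20 := two_ne_zero' p h4
  have hc0 := D.cast_c_ne
  have hI2 : φ gi ^ 2 = -1 := map_gi_sq φ
  have hpe := phi_eq φ hφ
  set I := φ gi with hI
  have hd : 4 * (e : ZMod p) = c * I := by linear_combination -I * hpe + 4 * (e : ZMod p) * hI2
  have key : 2 * (c : ZMod p) ^ 2 = -I * ((c + 4 * e : ℤ) : ZMod p) ^ 2 := by
    push_cast
    rw [hd]
    linear_combination (-(c : ZMod p) ^ 2) * (-I - 2) * hI2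
  have hcd0 : ((c + 4 * e : ℤ) : ZMod p) ≠ 0 := by
    intro h0
    rw [h0] at key
    have : 2 * (c : ZMod p) ^ 2 = 0 := by rw [key]; ring
    rcases mul_eq_zero.mp this with h | h
    · exact h20 h
    · exact hc0 (pow_eq_zero_iff (two_ne_zero) |>.mp h)
  have mA := D.ME_chi φ χ hχ
  have hA := D.sym_chi φ hker χ hχ
  have Ac : χ (c : ZMod p) = E8 c := D.A_c mA hA
  have Acd : χ ((c + 4 * e : ℤ) : ZMod p) ^ 2 = E8 (c + 4 * e) := D.A_cd mA hA
  apply map_inj φ h20 (hχ 2 h20).1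
  · have h1 : (c * (c + 4 * e)) % 2 = 1 := by
      have := D.c4
      rw [Int.mul_emod]
      have h2 : c % 2 = 1 := by omega
      have h3 : (c + 4 * e) % 2 = 1 := by omega
      rw [h2, h3]; rfl
    have h2 := E8_sq h1
    calc E8 (c * (c + 4 * e)) ^ 4 = (E8 (c * (c + 4 * e)) ^ 2) ^ 2 := by ring
      _ = 1 := by rw [h2]; norm_num
  · have hK : Even ((p - 1) / 4) := by rw [Nat.even_iff]; omega
    have e1 : (2 * (c : ZMod p) ^ 2) ^ ((p - 1) / 4) =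
        (-I * ((c + 4 * e : ℤ) : ZMod p) ^ 2) ^ ((p - 1) / 4) := by rw [key]
    have hc2 : φ (χ (c : ZMod p)) ^ 2 = 1 := by
      rw [Ac, ← map_pow, E8_sq (by have := D.c4; omega), map_one]
    have hcd2 : φ (χ ((c + 4 * e : ℤ) : ZMod p)) ^ 2 = φ (E8 (c + 4 * e)) := by
      rw [← map_pow, Acd]
    have hIK : (-I) ^ ((p - 1) / 4) = φ (E8 c) := by
      rw [hK.neg_pow, hI, ← map_pow, D.gi_pow]
    rw [mul_pow, mul_pow, ← pow_mul, ← pow_mul, mul_comm 2 ((p - 1) / 4), pow_mul, pow_mul,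
      ← (hχ 2 h20).2, ← (hχ _ hc0).2, ← (hχ _ hcd0).2, hc2, hcd2, hIK, mul_one, ← map_mul,
      ← E8_mul] at e1
    exact e1

include hker hχ in
/-- The formula for the quartic power of `ε`. -/
theorem Data.eps_pow (ε : ZMod p) (hε : (c : ZMod p) * w * ε = φ gi * (t * m))
    {F : ℤ → GaussianInt} (mF : ME F)
    (hF : ∀ q : ℕ, q.Prime → q ≠ 2 → ¬ (q : ℤ) ∣ a ^ 2 + b ^ 2 → Sym ⟨a, b⟩ q (F q)) :
    ε ^ ((p - 1) / 4) = φ (E8 m * F m * χ (w : ZMod p) ^ 3) := by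
  have hc0 := D.cast_c_ne
  have hw0 := D.cast_w_ne
  have hm0 := D.cast_m_ne
  have ht0 := D.cast_t_ne
  have mA := D.ME_chi φ χ hχ
  have hA := D.sym_chi φ hker χ hχ
  have Ac : χ (c : ZMod p) = E8 c := D.A_c mA hA
  have At : χ (t : ZMod p) = 1 := D.A_t mA hA
  have Am : χ (m : ZMod p) = E8 m * F m := D.A_m mA hA mF hF
  have e1 : ((c : ZMod p) * w * ε) ^ ((p - 1) / 4) = (φ gi * (t * m)) ^ ((p - 1) / 4) := by
    rw [hε]
  rw [mul_pow, mul_pow, mul_pow, mul_pow, ← (hχ _ hc0).2, ← (hχ _ hw0).2, ← (hχ _ ht0).2,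
    ← (hχ _ hm0).2, ← map_pow, D.gi_pow, Ac, At, Am, map_one, one_mul] at e1
  have hc1 : φ (E8 c) ^ 2 = 1 := by
    rw [← map_pow, E8_sq (by have := D.c4; omega), map_one]
  have hw4 : φ (χ (w : ZMod p)) ^ 4 = 1 := by
    rw [← map_pow, (hχ _ hw0).1, map_one]
  rw [map_mul, map_pow]
  linear_combination (φ (E8 c) * φ (χ (w : ZMod p)) ^ 3) * e1
    - ε ^ ((p - 1) / 4) * φ (χ (w : ZMod p)) ^ 4 * hc1
    + φ (E8 m * F m) * φ (χ (w : ZMod p)) ^ 3 * hc1 - ε ^ ((p - 1) / 4) * hw4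

end

end Pool.Agent.Lib.MP_f2f5f5_nt
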