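import Mathlib
import Pool.Agent.Lib.MP_f2f5f5_nt.Core3

set_option autoImplicit false

namespace Pool.Agent.Lib.MP_f2f5f5_nt

open Finset

theorem mult_pow (X : ℤ → GaussianInt) (X1 : X 1 = 1) (Xm : ∀ a b, X (a * b) = X a * X b)
    (n : ℤ) (k : ℕ) : X (n ^ k) = X n ^ k := by
  induction k with
  | zero => simp [X1]
  | succ k ih => rw [pow_succ, Xm, ih, pow_succ]

theorem sq_mod_eight {n : ℤ} (h : n % 2 = 1) : n ^ 2 % 8 = 1 := by
  have h8 : n % 8 = 1 ∨ n % 8 = 3 ∨ n % 8 = 5 ∨ n % 8 = 7 := by omega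
  rw [sq, Int.mul_emod]
  rcases h8 with h8 | h8 | h8 | h8 <;> rw [h8] <;> rfl

theorem ME_st {X : ℤ → GaussianInt} (X1 : X 1 = 1) (Xm : ∀ a b, X (a * b) = X a * X b) :
    ME (fun n => X (st n)) := by
  refine ⟨?_, ?_, ?_⟩
  · have : st 1 = 1 := by decide
    simp only [this, X1]
  · intro a b
    simp only [st_mul, Xm]
  · intro a
    simp only [st_neg]

/-- Writing `w` as a power of two times an odd number and splitting `s` accordingly. -/
theorem split_two {t s w : ℤ} (ht : 0 < t) (ht2 : t % 2 = 1) (hw : w ≠ 0) (hws : w ^ 2 = t * s) :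
    ∃ (j y s' t' : ℕ), w.natAbs = 2 ^ j * y ∧ y % 2 = 1 ∧ s = (2 ^ j) ^ 2 * (s' : ℤ) ∧
      s' % 2 = 1 ∧ t = t' ∧ s' * t' = y ^ 2 := by
  obtain ⟨j, y, hy, hwy⟩ := Nat.exists_eq_two_pow_mul_odd (n := w.natAbs) (by omega)
  have hy2 : y % 2 = 1 := Nat.odd_iff.mp hy
  have hs0 : 0 < s := by
    have h1 : 0 < t * s := by rw [← hws]; positivity
    exact (mul_pos_iff_of_pos_left ht).mp h1
  obtain ⟨t', rfl⟩ := Int.eq_ofNat_of_zero_le ht.le
  obtain ⟨s0, rfl⟩ := Int.eq_ofNat_of_zero_le hs0.le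
  have h2 : (2 ^ j) ^ 2 * y ^ 2 = t' * s0 := by
    have : ((w.natAbs : ℤ)) ^ 2 = t' * s0 := by rw [Int.natCast_natAbs, sq_abs]; exact hws
    rw [hwy] at this
    have h3 : (2 ^ j * y) ^ 2 = t' * s0 := by exact_mod_cast this
    rw [← h3]; ring
  have hcop : Nat.Coprime ((2 ^ j) ^ 2) t' := by
    apply Nat.Coprime.pow_left
    apply Nat.Coprime.pow_left
    rw [Nat.coprime_two_left, Nat.odd_iff]
    omega
  have h3 : (2 ^ j) ^ 2 ∣ s0 := hcop.dvd_of_dvd_mul_left (Dvd.intro _ h2)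
  obtain ⟨s', rfl⟩ := h3
  have h4 : s' * t' = y ^ 2 := by
    have h5 : (2 ^ j) ^ 2 * (s' * t') = (2 ^ j) ^ 2 * y ^ 2 := by rw [h2]; ring
    exact Nat.eq_of_mul_eq_mul_left (by positivity) h5
  refine ⟨j, y, s', t', hwy, hy2, by push_cast; ring, ?_, rfl, h4⟩
  have h6 : (s' * t') % 2 = 1 := by rw [h4, Nat.pow_mod, hy2]
  rw [Nat.mul_mod] at h6
  rcases Nat.mod_two_eq_zero_or_one s' with h7 | h7
  · rw [h7] at h6; simp at h6
  · exact h7

theorem exp_eq_one {n j y : ℕ} (h : n = 2 ^ j * y) (hy : y % 2 = 1) (hn : n % 4 = 2) : j = 1 := by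
  rw [h] at hn
  rcases j with _ | _ | j
  · simp at hn; omega
  · rfl
  · exfalso
    have : 2 ^ (j + 1 + 1) * y = 4 * (2 ^ j * y) := by ring
    omega

theorem chi4_eq_one {n : ℤ} (h : n % 4 = 1) : (ZMod.χ₄ (n : ZMod 4) : ℤ) = 1 :=
  ZMod.χ₄_int_one_mod_four h

theorem chi4_eq_neg_one {n : ℤ} (h : n % 4 = 3) : (ZMod.χ₄ (n : ZMod 4) : ℤ) = -1 :=
  ZMod.χ₄_int_three_mod_four h

theorem chi4_congr {m n : ℤ} (h : m % 4 = n % 4) : ZMod.χ₄ (m : ZMod 4) = ZMod.χ₄ (n : ZMod 4) := by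
  congr 1
  rw [ZMod.intCast_eq_intCast_iff']
  exact_mod_cast h

section

variable {p : ℕ} {c e g h w B t a b m s : ℤ} (D : Data p c e g h w B t a b m s)

include D

theorem Data.tm : t * m = g ^ 2 + h ^ 2 + w ^ 2 := by
  have h1 := D.hs
  have h2 := D.ws
  rw [D.ga, D.hb, h1, h2]; ring

theorem Data.tm' : t * m = g * c + 4 * h * e := by
  rw [D.ga, D.hb, D.hm]; ring

theorem Data.c_mul : g * c = g ^ 2 + (1 + B ^ 2) * w ^ 2 - 4 * e ^ 2 := by
  have := D.gc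
  linarith

variable [hpf : Fact p.Prime] (φ : GaussianInt →+* ZMod p) (hφ : φ ⟨c, 4 * e⟩ = 0)
  (hker : ∀ z, φ z = 0 → (⟨c, 4 * e⟩ : GaussianInt) ∣ z)
  (χ : MulChar (ZMod p) GaussianInt)
  (hχ : ∀ t : ZMod p, t ≠ 0 → χ t ^ 4 = 1 ∧ φ (χ t) = t ^ ((p - 1) / 4))

include hφ hker hχ

theorem Data.chi_two_even (he : e % 2 = 0) : χ 2 = 1 := by
  rw [D.chi_two φ hφ hker χ hχ]
  apply E8_one_eq
  left
  obtain ⟨k, hk⟩ : ∃ k, e = 2 * k := ⟨e / 2, by omega⟩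
  have h1 := sq_mod_eight (n := c) (by have := D.c4; omega)
  have : c * (c + 4 * e) = c ^ 2 + 8 * (c * k) := by rw [hk]; ring
  rw [this]; omega

theorem Data.chi_two_odd (he : e % 2 = 1) : χ 2 = -1 := by
  rw [D.chi_two φ hφ hker χ hχ]
  apply E8_neg_one_eq
  right
  obtain ⟨k, hk⟩ : ∃ k, e = 2 * k + 1 := ⟨e / 2, by omega⟩
  have h1 := sq_mod_eight (n := c) (by have := D.c4; omega)
  have : c * (c + 4 * e) = c ^ 2 + 8 * (c * k) + 4 * c := by rw [hk]; ring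
  have h4 := D.c4
  rw [this]; omega

/-- The case where `w` is even. -/
theorem Data.case_even (hw2 : w % 2 = 0) (ε : ZMod p)
    (hε : (c : ZMod p) * w * ε = φ gi * (t * m)) :
    ε ^ ((p - 1) / 4) = if (e + w / 2) % 2 = 0 then 1 else -1 := by
  have ht2 := D.t2
  have ha2 := D.a2
  have hw0 : w ≠ 0 := by rintro rfl; exact D.pw (dvd_zero _)
  have hb2 : b % 2 = 0 := by
    have h1 := D.hb
    have h2 := D.hh
    obtain ⟨v, hv⟩ : ∃ v, w = 2 * v := ⟨w / 2, by omega⟩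
    have h3 : t * b = 2 * (e - B * v) := by rw [← h1, h2, hv]; ring
    have h4 : (t * b) % 2 = 0 := by rw [h3]; omega
    rw [Int.mul_emod, ht2] at h4
    omega
  obtain ⟨X, X1, Xm, Xp, X4, Xs, X2, XN⟩ := lawFor_good (z := ⟨a, b⟩) ⟨ha2, hb2⟩
  rw [norm_beta] at Xp X4 XN
  have mF := ME_st X1 Xm
  have hF : ∀ q : ℕ, q.Prime → q ≠ 2 → ¬ (q : ℤ) ∣ a ^ 2 + b ^ 2 →
      Sym ⟨a, b⟩ q ((fun n => X (st n)) (q : ℤ)) := by
    intro q hq hq2 hn
    exact Xs q hq hq2 (by rw [norm_beta]; exact hn)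
  rw [D.eps_pow φ hker χ hχ ε hε mF hF]
  obtain ⟨j, y, s', t', hwy, hy2, hss, hs'2, htt, hst⟩ := split_two D.t0 ht2 hw0 D.ws
  have hy0 : y ≠ 0 := by omega
  have mA := D.ME_chi φ χ hχ
  have hA := D.sym_chi φ hker χ hχ
  have hs'd : (s' : ℤ) ∣ s := by rw [hss]; exact Dvd.intro_left _ rfl
  have hFs : X (st s') = χ (((y : ℤ)) : ZMod p) * E8 t :=
    D.F_s mA hA mF hF y s' t' htt hy0 hs'd hs'2 hst
  -- the value at `w`
  have hχw : χ (w : ZMod p) = χ 2 ^ j * χ (((y : ℤ)) : ZMod p) := by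
    have h1 : χ ((w : ℤ) : ZMod p) = χ ((((w.natAbs : ℕ) : ℤ)) : ZMod p) := by
      rcases Int.natAbs_eq w with h2 | h2
      · rw [← h2]
      · have h3 := mA.2.2 w
        simp only at h3
        rw [← h3]
        congr 2
        omega
    rw [h1, hwy]
    push_cast
    rw [map_mul, map_pow]
  have hywp : ((y : ℤ) : ZMod p) ≠ 0 := by
    intro h0
    rw [h0, MulChar.map_zero, mul_zero] at hχw
    have := (hχ _ D.cast_w_ne).1
    rw [hχw] at this
    simp at this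
  have hy4 := (hχ _ hywp).1
  -- the mod 4 comparison
  have h8t := sq_mod_eight ht2
  have hg8 := sq_mod_eight D.g2
  have hm4 : m % 4 = (s' : ℤ) % 4 := by
    have e1 : (t * m) % 4 = 1 := by
      have h1 := D.tm
      obtain ⟨v, hv⟩ : ∃ v, w = 2 * v := ⟨w / 2, by omega⟩
      obtain ⟨u, hu⟩ : ∃ u, h = 2 * u := by
        refine ⟨e - B * v, ?_⟩
        rw [D.hh, hv]; ring
      rw [h1, hv, hu]
      have : g ^ 2 + (2 * u) ^ 2 + (2 * v) ^ 2 = g ^ 2 + 4 * (u ^ 2 + v ^ 2) := by ring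
      rw [this]; omega
    have e2 : (t * (s' : ℤ)) % 4 = 1 := by
      have h1 : t * (s' : ℤ) = (y : ℤ) ^ 2 := by rw [htt]; exact_mod_cast (by rw [← hst]; ring)
      have h2 := sq_mod_eight (n := (y : ℤ)) (by omega)
      rw [h1]; omega
    have hm2 := D.m2
    have ht4 : t % 4 = 1 ∨ t % 4 = 3 := by omega
    have hm4 : m % 4 = 1 ∨ m % 4 = 3 := by omega
    have hs4 : (s' : ℤ) % 4 = 1 ∨ (s' : ℤ) % 4 = 3 := by omega
    rw [Int.mul_emod] at e1 e2
    rcases ht4 with h1 | h1 <;> rcases hm4 with h2 | h2 <;> rcases hs4 with h3 | h3 <;>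
      rw [h1] at e1 e2 <;> rw [h2] at e1 <;> rw [h3] at e2 <;> omega
  have hc4 := chi4_congr hm4
  -- F m in terms of F s'
  have hFm : X (st m) = X (-1) ^ j * X (st s') := by
    have h1 : X m = X s := Xp m s (by rw [D.hs]; exact ⟨t, by ring⟩)
    unfold st
    rw [Xm, Xm, h1, hss, Xm, mult_pow X X1 Xm, mult_pow X X1 Xm, ← X2, hc4]
    ring
  have hχ22 : χ 2 ^ 2 = 1 := by
    rcases Int.emod_two_eq_zero_or_one e with he | he
    · rw [D.chi_two_even φ hφ hker χ hχ he]; norm_num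
    · rw [D.chi_two_odd φ hφ hker χ hχ he]; norm_num
  have hval : E8 m * X (st m) * χ (w : ZMod p) ^ 3 = E8 (t * m) * (X (-1) * χ 2) ^ j := by
    rw [hFm, hFs, hχw, E8_mul, mul_pow]
    have h3 : (χ 2 ^ j) ^ 3 = χ 2 ^ j := by
      have : (χ 2 ^ j) ^ 3 = (χ 2 ^ 2) ^ j * χ 2 ^ j := by ring
      rw [this, hχ22, one_pow, one_mul]
    rw [mul_pow, h3]
    linear_combination (E8 t * E8 m * X (-1) ^ j * χ 2 ^ j) * hy4
  rw [hval]
  -- numerical evaluation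
  obtain ⟨v, hv⟩ : ∃ v, w = 2 * v := ⟨w / 2, by omega⟩
  have hv' : w / 2 = v := by omega
  have hB2 := sq_mod_eight D.B2
  have htm8 : (t * m) % 8 = (1 + 4 * e) % 8 := by
    have h1 := D.tm'
    have h2 := D.c_mul
    obtain ⟨u, hu⟩ : ∃ u, h = 2 * u := by
      refine ⟨e - B * v, ?_⟩
      rw [D.hh, hv]; ring
    obtain ⟨r, hr⟩ : ∃ r, 1 + B ^ 2 = 2 * r := ⟨(1 + B ^ 2) / 2, by omega⟩
    rw [h1, h2, hu, hv, hr]
    have h3 : g ^ 2 + 2 * r * (2 * v) ^ 2 - 4 * e ^ 2 + 4 * (2 * u) * e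
        = g ^ 2 + 8 * (r * v ^ 2 + u * e) - 4 * e ^ 2 := by ring
    rw [h3]
    rcases Int.emod_two_eq_zero_or_one e with he | he
    · obtain ⟨f, hf⟩ : ∃ f, e = 2 * f := ⟨e / 2, by omega⟩
      have : 4 * e ^ 2 = 8 * (2 * f ^ 2) := by rw [hf]; ring
      omega
    · have := sq_mod_eight he
      omega
  have hN8 : (a ^ 2 + b ^ 2) % 8 = (1 + 4 * (e + v)) % 8 := by
    have h1 : t ^ 2 * (a ^ 2 + b ^ 2) = g ^ 2 + 4 * (e - B * v) ^ 2 := by
      have h2 : t * b = 2 * (e - B * v) := by rw [← D.hb, D.hh, hv]; ring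
      rw [D.ga]
      linear_combination (t * b + 2 * (e - B * v)) * h2
    have h3 : (t ^ 2 * (a ^ 2 + b ^ 2)) % 8 = (a ^ 2 + b ^ 2) % 8 := by
      rw [Int.mul_emod, h8t, one_mul, Int.emod_emod_of_dvd _ (dvd_refl _)]
    rw [← h3, h1]
    obtain ⟨r, hr⟩ : ∃ r, B = 2 * r + 1 := ⟨B / 2, by have := D.B2; omega⟩
    have h5 : e - B * v = (e - v) - 2 * (r * v) := by rw [hr]; ring
    rcases Int.emod_two_eq_zero_or_one (e - B * v) with he | he
    · obtain ⟨f, hf⟩ : ∃ f, e - B * v = 2 * f := ⟨(e - B * v) / 2, by omega⟩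
      have h4 : 4 * (e - B * v) ^ 2 = 8 * (2 * f ^ 2) := by rw [hf]; ring
      omega
    · have := sq_mod_eight he
      omega
  rw [hv']
  rcases Int.emod_two_eq_zero_or_one e with he | he <;>
    rcases Int.emod_two_eq_zero_or_one v with hvv | hvv
  · -- e even, v even
    have h1 : E8 (t * m) = 1 := E8_one_eq (by omega)
    have h2 : X (-1) = 1 := by
      rcases XN with ⟨h3, h4⟩ | ⟨h3, h4⟩
      · exact h4
      · omega
    rw [h1, h2, D.chi_two_even φ hφ hker χ hχ he, if_pos (by omega)]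
    simp
  · -- e even, v odd
    have h1 : E8 (t * m) = 1 := E8_one_eq (by omega)
    have h2 : X (-1) = -1 := by
      rcases XN with ⟨h3, h4⟩ | ⟨h3, h4⟩
      · omega
      · exact h4
    have hj : j = 1 := exp_eq_one hwy hy2 (by omega)
    rw [h1, h2, D.chi_two_even φ hφ hker χ hχ he, if_neg (by omega), hj]
    simp
  · -- e odd, v even
    have h1 : E8 (t * m) = -1 := E8_neg_one_eq (by omega)
    have h2 : X (-1) = -1 := by
      rcases XN with ⟨h3, h4⟩ | ⟨h3, h4⟩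
      · omega
      · exact h4
    rw [h1, h2, D.chi_two_odd φ hφ hker χ hχ he, if_neg (by omega)]
    simp
  · -- e odd, v odd
    have h1 : E8 (t * m) = -1 := E8_neg_one_eq (by omega)
    have h2 : X (-1) = 1 := by
      rcases XN with ⟨h3, h4⟩ | ⟨h3, h4⟩
      · exact h4
      · omega
    have hj : j = 1 := exp_eq_one hwy hy2 (by omega)
    rw [h1, h2, D.chi_two_odd φ hφ hker χ hχ he, if_pos (by omega), hj]
    simp

end

end Pool.Agent.Lib.MP_f2f5f5_nt
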