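import Mathlib
import Pool.Agent.Lib.MP_f2f5f5_nt.CaseEven

set_option autoImplicit false

namespace Pool.Agent.Lib.MP_f2f5f5_nt

open Finset

/-- The symbol of `1 + i` as a function of the residue modulo 16. -/
def G16 (n : ZMod 16) : GaussianInt :=
  if n = 1 ∨ n = 15 then 1 else if n = 5 ∨ n = 11 then gi
  else if n = 7 ∨ n = 9 then -1 else if n = 3 ∨ n = 13 then -gi else 0

set_option maxRecDepth 100000 in
theorem G16_mul : ∀ m n : ZMod 16, G16 (m * n) = G16 m * G16 n := by decide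

/-- The symbol of `1 + i` on integers. -/
def Gf (n : ℤ) : GaussianInt := G16 (n : ZMod 16)

theorem Gf_one : Gf 1 = 1 := by decide

theorem Gf_mul (m n : ℤ) : Gf (m * n) = Gf m * Gf n := by
  unfold Gf; push_cast; exact G16_mul _ _

theorem Gf_neg (n : ℤ) : Gf (-n) = Gf n := by
  rw [← neg_one_mul, Gf_mul]
  have : Gf (-1) = 1 := by decide
  rw [this, one_mul]

theorem ME_Gf : ME Gf := ⟨Gf_one, Gf_mul, Gf_neg⟩

theorem Gf_eq {n r : ℤ} (h : n % 16 = r) : Gf n = Gf r := by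
  unfold Gf
  congr 1
  rw [ZMod.intCast_eq_intCast_iff']
  rw [← h]
  push_cast
  rw [Int.emod_emod_of_dvd _ (dvd_refl _)]

theorem Gf_1 : Gf 1 = 1 := by decide
theorem Gf_3 : Gf 3 = -gi := by decide
theorem Gf_5 : Gf 5 = gi := by decide
theorem Gf_7 : Gf 7 = -1 := by decide
theorem Gf_9 : Gf 9 = -1 := by decide
theorem Gf_11 : Gf 11 = gi := by decide
theorem Gf_13 : Gf 13 = -gi := by decide
theorem Gf_15 : Gf 15 = 1 := by decide

theorem gi_pow_mod (n : ℕ) : gi ^ n = gi ^ (n % 4) := by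
  have h4 : gi ^ 4 = 1 := by
    have : gi ^ 4 = (gi ^ 2) ^ 2 := by ring
    rw [this, gi_pow_two]; norm_num
  conv_lhs => rw [← Nat.div_add_mod n 4]
  rw [pow_add, pow_mul, h4, one_pow, one_mul]

theorem neg_gi_pow_mod (n : ℕ) : (-gi) ^ n = (-gi) ^ (n % 4) := by
  have h4 : (-gi) ^ 4 = 1 := by
    have : (-gi) ^ 4 = (gi ^ 2) ^ 2 := by ring
    rw [this, gi_pow_two]; norm_num
  conv_lhs => rw [← Nat.div_add_mod n 4]
  rw [pow_add, pow_mul, h4, one_pow, one_mul]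

theorem Gf_four {n : ℤ} (h : n % 2 = 1) : Gf n ^ 4 = 1 := by
  have h4 : gi ^ 4 = 1 := by
    have : gi ^ 4 = (gi ^ 2) ^ 2 := by ring
    rw [this, gi_pow_two]; norm_num
  have h4' : (-gi) ^ 4 = 1 := by
    have : (-gi) ^ 4 = (gi ^ 2) ^ 2 := by ring
    rw [this, gi_pow_two]; norm_num
  have h16 : n % 16 = 1 ∨ n % 16 = 3 ∨ n % 16 = 5 ∨ n % 16 = 7 ∨ n % 16 = 9 ∨ n % 16 = 11 ∨
    n % 16 = 13 ∨ n % 16 = 15 := by omega
  rcases h16 with h1 | h1 | h1 | h1 | h1 | h1 | h1 | h1 <;> rw [Gf_eq h1]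
  · rw [Gf_1]; norm_num
  · rw [Gf_3]; exact h4'
  · rw [Gf_5]; exact h4
  · rw [Gf_7]; norm_num
  · rw [Gf_9]; norm_num
  · rw [Gf_11]; exact h4
  · rw [Gf_13]; exact h4'
  · rw [Gf_15]; norm_num

/-- The quartic law for `1 + i`. -/
theorem sym_one_add_gi (q : ℕ) (hq : q % 2 = 1) : Sym (1 + gi) q (Gf q) := by
  refine ⟨Gf_four (by omega), fun h => ?_, fun h => ?_⟩
  · have h1 : Gf q = gi ^ ((q - 1) / 4) := by
      rw [gi_pow_mod]
      have h16 : q % 16 = 1 ∨ q % 16 = 5 ∨ q % 16 = 9 ∨ q % 16 = 13 := by omega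
      rcases h16 with h1 | h1 | h1 | h1
      · rw [Gf_eq (r := 1) (by omega), Gf_1]
        have : (q - 1) / 4 % 4 = 0 := by omega
        rw [this, pow_zero]
      · rw [Gf_eq (r := 5) (by omega), Gf_5]
        have : (q - 1) / 4 % 4 = 1 := by omega
        rw [this, pow_one]
      · rw [Gf_eq (r := 9) (by omega), Gf_9]
        have : (q - 1) / 4 % 4 = 2 := by omega
        rw [this, gi_pow_two]
      · rw [Gf_eq (r := 13) (by omega), Gf_13]
        have : (q - 1) / 4 % 4 = 3 := by omega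
        rw [this, pow_succ, gi_pow_two]; ring
    have h2 : (1 + gi) = gi * star (1 + gi) := by
      rw [star_add, star_one, star_gi]
      linear_combination gi_pow_two
    have h3 : (1 + gi) ^ ((q - 1) / 4) = gi ^ ((q - 1) / 4) * star (1 + gi) ^ ((q - 1) / 4) := by
      rw [← mul_pow, ← h2]
    rw [h1, h3, sub_self]
    exact dvd_zero _
  · have h1 : Gf q = (-gi) ^ ((q + 1) / 4) := by
      rw [neg_gi_pow_mod]
      have h16 : q % 16 = 3 ∨ q % 16 = 7 ∨ q % 16 = 11 ∨ q % 16 = 15 := by omega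
      rcases h16 with h1 | h1 | h1 | h1
      · rw [Gf_eq (r := 3) (by omega), Gf_3]
        have : (q + 1) / 4 % 4 = 1 := by omega
        rw [this, pow_one]
      · rw [Gf_eq (r := 7) (by omega), Gf_7]
        have : (q + 1) / 4 % 4 = 2 := by omega
        rw [this, neg_pow, gi_pow_two]; norm_num
      · rw [Gf_eq (r := 11) (by omega), Gf_11]
        have : (q + 1) / 4 % 4 = 3 := by omega
        rw [this]
        linear_combination (gi) * gi_pow_two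
      · rw [Gf_eq (r := 15) (by omega), Gf_15]
        have : (q + 1) / 4 % 4 = 0 := by omega
        rw [this, pow_zero]
    have h2 : star (1 + gi) = -gi * (1 + gi) := by
      rw [star_add, star_one, star_gi]
      linear_combination gi_pow_two
    have h3 : star (1 + gi) ^ ((q + 1) / 4) = (-gi) ^ ((q + 1) / 4) * (1 + gi) ^ ((q + 1) / 4) := by
      rw [← mul_pow, ← h2]
    rw [h1, h3, sub_self]
    exact dvd_zero _

/-- Splitting off the factor `1 + i`. -/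
theorem split_one_add_gi (a b : ℤ) (ha : a % 2 = 1) (hb : b % 2 = 1) :
    ∃ (k : ℕ) (z : GaussianInt), Good z ∧ (⟨a, b⟩ : GaussianInt) = (1 + gi) * gi ^ k * z ∧
      ((k = 0 ∧ (a + b) % 4 = 2) ∨ (k = 1 ∧ (a + b) % 4 = 0)) := by
  have h4 : (a + b) % 4 = 2 ∨ (a + b) % 4 = 0 := by omega
  rcases h4 with h4 | h4
  · obtain ⟨x, hx⟩ : ∃ x, a + b = 2 * x := ⟨(a + b) / 2, by omega⟩
    obtain ⟨y, hy⟩ : ∃ y, b - a = 2 * y := ⟨(b - a) / 2, by omega⟩
    refine ⟨0, ⟨x, y⟩, ⟨?_, ?_⟩, ?_, Or.inl ⟨rfl, h4⟩⟩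
    · simp only; omega
    · simp only; omega
    · ext
      · simp [gi]; omega
      · simp [gi]; omega
  · obtain ⟨x, hx⟩ : ∃ x, b - a = 2 * x := ⟨(b - a) / 2, by omega⟩
    obtain ⟨y, hy⟩ : ∃ y, a + b = 2 * y := ⟨(a + b) / 2, by omega⟩
    refine ⟨1, ⟨x, -y⟩, ⟨?_, ?_⟩, ?_, Or.inr ⟨rfl, h4⟩⟩
    · simp only; omega
    · simp only; omega
    · ext
      · simp [gi]; omega
      · simp [gi]; omega

theorem fourth_mod_sixteen {n : ℤ} (h : n % 2 = 1) : n ^ 4 % 16 = 1 := by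
  have h8 := sq_mod_eight h
  obtain ⟨k, hk⟩ : ∃ k, n ^ 2 = 8 * k + 1 := ⟨n ^ 2 / 8, by omega⟩
  have : n ^ 4 = 16 * (4 * k ^ 2 + k) + 1 := by
    have e : n ^ 4 = (n ^ 2) ^ 2 := by ring
    rw [e, hk]; ring
  rw [this]; omega

theorem sym_pow {lam u : GaussianInt} (q k : ℕ) (h : Sym lam q u) : Sym (lam ^ k) q (u ^ k) := by
  induction k with
  | zero => simpa using sym_int q 1
  | succ k ih => rw [pow_succ, pow_succ]; exact sym_mul q ih h

theorem ME.pow {f : ℤ → GaussianInt} (hf : ME f) (k : ℕ) : ME (fun n => f n ^ k) := by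
  refine ⟨?_, ?_, ?_⟩
  · simp [hf.1]
  · intro a b; simp only [hf.2.1, mul_pow]
  · intro a; simp only [hf.2.2]

section

variable {p : ℕ} {c e g h w B t a b m s : ℤ} (D : Data p c e g h w B t a b m s)

include D

theorem Data.g_mod_four (hw2 : w % 2 = 1) : g % 4 = 3 := by
  have h1 := D.c_mul
  have h2 := sq_mod_eight D.g2
  have h3 := sq_mod_eight hw2
  have h4 := sq_mod_eight D.B2
  obtain ⟨r, hr⟩ : ∃ r, B ^ 2 = 8 * r + 1 := ⟨B ^ 2 / 8, by omega⟩
  obtain ⟨u, hu⟩ : ∃ u, w ^ 2 = 8 * u + 1 := ⟨w ^ 2 / 8, by omega⟩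
  have h5 : g * c = g ^ 2 + 8 * (8 * r * u + r + 2 * u) + 2 - 4 * e ^ 2 := by
    rw [h1, hr, hu]; ring
  have h6 : (g * c) % 4 = 3 := by rw [h5]; omega
  have h7 := D.c4
  have h8 := D.g2
  have h9 : g % 4 = 1 ∨ g % 4 = 3 := by omega
  rw [Int.mul_emod, h7] at h6
  rcases h9 with h9 | h9
  · rw [h9] at h6; norm_num at h6
  · exact h9

variable [hpf : Fact p.Prime] (φ : GaussianInt →+* ZMod p)
  (hker : ∀ z, φ z = 0 → (⟨c, 4 * e⟩ : GaussianInt) ∣ z)
  (χ : MulChar (ZMod p) GaussianInt)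
  (hχ : ∀ t : ZMod p, t ≠ 0 → χ t ^ 4 = 1 ∧ φ (χ t) = t ^ ((p - 1) / 4))

include hker hχ

/-- The case where `w` is odd. -/
theorem Data.case_odd (hw4 : w % 4 = 1) (ε : ZMod p)
    (hε : (c : ZMod p) * w * ε = φ gi * (t * m)) :
    ε ^ ((p - 1) / 4) = (if ((B - 1) / 2 + e) % 2 = 0 then 1 else -1) * φ gi := by
  have ht2 := D.t2
  have ha2 := D.a2
  have hm2 := D.m2
  have hB2 := D.B2
  have hw0 : w ≠ 0 := by rintro rfl; exact D.pw (dvd_zero _)
  have hg4 := D.g_mod_four (by omega)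
  have hh2 : h % 2 = 1 := by
    have h2 := D.hh
    have h3 : (B * w) % 2 = 1 := by
      rw [Int.mul_emod, hB2]
      have : w % 2 = 1 := by omega
      rw [this]; rfl
    omega
  have hb2 : b % 2 = 1 := by
    have h1 := D.hb
    rw [h1, Int.mul_emod, ht2] at hh2
    omega
  obtain ⟨k, β, hgood, hab, hk⟩ := split_one_add_gi a b ha2 hb2
  obtain ⟨X, X1, Xm, Xp, X4, Xs, X2, XN⟩ := lawFor_good hgood
  have hnorm : a ^ 2 + b ^ 2 = 2 * β.norm := by
    have h1 := congrArg Zsqrtd.norm hab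
    rw [norm_beta, Zsqrtd.norm_mul, Zsqrtd.norm_mul] at h1
    have h2 : (1 + gi).norm = 2 := by decide
    have h3 : (gi ^ k).norm = 1 := by
      rcases hk with ⟨rfl, _⟩ | ⟨rfl, _⟩
      · decide
      · rw [pow_one]; decide
    rw [h2, h3] at h1
    linarith
  have mF := ((ME_Gf.mul (ME_E8.pow k)).mul (ME_st X1 Xm))
  have hF : ∀ q : ℕ, q.Prime → q ≠ 2 → ¬ (q : ℤ) ∣ a ^ 2 + b ^ 2 →
      Sym ⟨a, b⟩ q ((fun n => Gf n * E8 n ^ k * X (st n)) (q : ℤ)) := by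
    intro q hq hq2 hn
    have hqo := odd_of_ne_two hq hq2
    have hn' : ¬ (q : ℤ) ∣ β.norm := by
      intro h; apply hn; rw [hnorm]; exact h.mul_left 2
    rw [hab]
    exact sym_mul q (sym_mul q (sym_one_add_gi q hqo) (sym_pow q k (sym_gi' q hqo)))
      (Xs q hq hq2 hn')
  rw [D.eps_pow φ hker χ hχ ε hε mF hF]
  obtain ⟨j, y, s', t', hwy, hy2, hss, hs'2, htt, hst⟩ := split_two D.t0 ht2 hw0 D.ws
  have hj : j = 0 := by
    rcases j with _ | j
    · rfl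
    · exfalso
      have : 2 ^ (j + 1) * y = 2 * (2 ^ j * y) := by ring
      omega
  subst hj
  rw [pow_zero, one_mul] at hwy
  rw [pow_zero, one_pow, one_mul] at hss
  have hy0 : y ≠ 0 := by omega
  have mA := D.ME_chi φ χ hχ
  have hA := D.sym_chi φ hker χ hχ
  have hs'd : (s' : ℤ) ∣ s := by rw [hss]
  have hFs : Gf s' * E8 s' ^ k * X (st s') = χ (((y : ℤ)) : ZMod p) * E8 t :=
    D.F_s mA hA mF hF y s' t' htt hy0 hs'd hs'2 hst
  rw [← hss] at hFs
  have hs2 : s % 2 = 1 := by omega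
  -- the value at `w`
  have hχw : χ (w : ZMod p) = χ (((y : ℤ)) : ZMod p) := by
    rcases Int.natAbs_eq w with h2 | h2
    · rw [← hwy, ← h2]
    · have h3 := mA.2.2 w
      simp only at h3
      rw [← h3]
      congr 2
      omega
  rw [← hχw] at hFs
  have hw4' := (hχ _ D.cast_w_ne).1
  -- residues
  have h8t := sq_mod_eight ht2
  have h8w := sq_mod_eight (n := w) (by omega)
  have hg8 := sq_mod_eight D.g2
  have hh8 := sq_mod_eight hh2
  have htm8 : (t * m) % 8 = 3 := by rw [D.tm]; omega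
  have hts8 : (t * s) % 8 = 1 := by rw [← D.ws]; exact h8w
  have hFm : X (st m) = X (-1) * X (st s) := by
    have h1 : X m = X s := by
      apply Xp
      rw [D.hs, hnorm]; exact ⟨2 * t, by ring⟩
    have h2 : ZMod.χ₄ (m : ZMod 4) = - ZMod.χ₄ (s : ZMod 4) := by
      have ht4 : t % 4 = 1 ∨ t % 4 = 3 := by omega
      have hm4 : m % 4 = 1 ∨ m % 4 = 3 := by omega
      have hs4 : s % 4 = 1 ∨ s % 4 = 3 := by omega
      have e1 : (t * m) % 4 = 3 := by omega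
      have e2 : (t * s) % 4 = 1 := by omega
      rw [Int.mul_emod] at e1 e2
      have h3 : (m % 4 = 1 ∧ s % 4 = 3) ∨ (m % 4 = 3 ∧ s % 4 = 1) := by
        rcases ht4 with h1 | h1 <;> rcases hm4 with h2 | h2 <;> rcases hs4 with h3 | h3 <;>
          rw [h1] at e1 e2 <;> rw [h2] at e1 <;> rw [h3] at e2 <;> omega
      rcases h3 with ⟨h3, h4⟩ | ⟨h3, h4⟩
      · rw [chi4_eq_one h3, chi4_eq_neg_one h4]; norm_num
      · rw [chi4_eq_one h4, chi4_eq_neg_one h3]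
    unfold st
    rw [h2]
    have e1 : - ZMod.χ₄ (s : ZMod 4) * m = -1 * (ZMod.χ₄ (s : ZMod 4) * m) := by ring
    rw [e1, Xm, Xm, Xm, h1]
  have hGs := Gf_four hs2
  have hEs := E8_sq hs2
  have hXs : X (st s) = Gf s ^ 3 * E8 s ^ k * χ (w : ZMod p) * E8 t := by
    have h1 : (E8 s ^ k) ^ 2 = 1 := by rw [← pow_mul, mul_comm, pow_mul, hEs, one_pow]
    linear_combination Gf s ^ 3 * E8 s ^ k * hFs - (E8 s ^ k) ^ 2 * X (st s) * hGs
      - X (st s) * h1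
  have hval : E8 m * (Gf m * E8 m ^ k * X (st m)) * χ (w : ZMod p) ^ 3
      = E8 (t * m) * E8 (m * s) ^ k * (X (-1) * Gf (m * s ^ 3)) := by
    rw [hFm, hXs, E8_mul, E8_mul, Gf_mul, mult_pow Gf Gf_one Gf_mul, mul_pow]
    linear_combination (E8 m * Gf m * E8 m ^ k * X (-1) * Gf s ^ 3 * E8 s ^ k * E8 t) * hw4'
  rw [hval]
  have v1 : E8 (t * m) = -1 := E8_neg_one_eq (Or.inl htm8)
  have v2 : E8 (m * s) = -1 := by
    apply E8_neg_one_eq
    left
    have h1 : t ^ 2 * (m * s) = (t * m) * (t * s) := by ring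
    have h2 : (t ^ 2 * (m * s)) % 8 = (m * s) % 8 := by
      rw [Int.mul_emod, h8t, one_mul, Int.emod_emod_of_dvd _ (dvd_refl _)]
    rw [← h2, h1, Int.mul_emod, htm8, hts8]; rfl
  have v3 : X (-1) * Gf (m * s ^ 3) = -gi := by
    have h1 : (m * s ^ 3) % 16 = (g ^ 2 + h ^ 2 + 1) % 16 := by
      have e1 : t ^ 4 * (m * s ^ 3) = (g ^ 2 + h ^ 2 + w ^ 2) * (w ^ 2) ^ 3 := by
        rw [← D.tm, D.ws]; ring
      have e2 : (t ^ 4 * (m * s ^ 3)) % 16 = (m * s ^ 3) % 16 := by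
        rw [Int.mul_emod, fourth_mod_sixteen ht2, one_mul, Int.emod_emod_of_dvd _ (dvd_refl _)]
      rw [← e2, e1]
      obtain ⟨u, hu⟩ : ∃ u, w ^ 2 = 8 * u + 1 := ⟨w ^ 2 / 8, by omega⟩
      obtain ⟨v, hv⟩ : ∃ v, g ^ 2 + h ^ 2 = 8 * v + 2 := ⟨(g ^ 2 + h ^ 2) / 8, by omega⟩
      rw [hu, hv]
      have : (8 * v + 2 + (8 * u + 1)) * (8 * u + 1) ^ 3 = 8 * v + 2 + 1 +
          16 * (256 * u ^ 4 + 256 * u ^ 3 * v + 192 * u ^ 3 + 96 * u ^ 2 * v + 48 * u ^ 2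
            + 12 * u * v + 5 * u) := by ring
      rw [this]; omega
    have h2 : g ^ 2 + h ^ 2 = 2 * (t ^ 2 * β.norm) := by
      rw [D.ga, D.hb]; linear_combination t ^ 2 * hnorm
    have h3 : (t ^ 2 * β.norm) % 8 = β.norm % 8 := by
      rw [Int.mul_emod, h8t, one_mul, Int.emod_emod_of_dvd _ (dvd_refl _)]
    rcases XN with ⟨h4, h5⟩ | ⟨h4, h5⟩
    · rw [h5, Gf_eq (r := 3) (by omega), Gf_3, one_mul]
    · rw [h5, Gf_eq (r := 11) (by omega), Gf_11]; ring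
  rw [v1, v2, v3]
  have hgh : (g + h) % 4 = (3 + 2 * e - B) % 4 := by
    have h1 := D.hh
    obtain ⟨u, hu⟩ : ∃ u, w = 4 * u + 1 := ⟨w / 4, by omega⟩
    have : h = 2 * e - B - 4 * (B * u) := by rw [h1, hu]; ring
    omega
  have hgh2 : (g + h) % 4 = 2 ↔ (a + b) % 4 = 2 := by
    have h1 : g + h = t * (a + b) := by rw [D.ga, D.hb]; ring
    obtain ⟨u, hu⟩ : ∃ u, a + b = 2 * u := ⟨(a + b) / 2, by omega⟩
    obtain ⟨v, hv⟩ : ∃ v, t = 2 * v + 1 := ⟨t / 2, by omega⟩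
    have : t * (a + b) = (a + b) + 4 * (v * u) := by rw [hv, hu]; ring
    rw [h1, this]; omega
  rcases hk with ⟨rfl, hk⟩ | ⟨rfl, hk⟩
  · rw [if_pos (by omega)]
    simp
  · rw [if_neg (by omega)]
    simp

end

end Pool.Agent.Lib.MP_f2f5f5_nt
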